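import Pool.Agent.L5helper4.VR.V5

set_option autoImplicit false

/-!
# The weighted number of solutions of an inhomogeneous system
-/

open Finset

namespace Pool.Agent.L5helper4.VS

open Pool.Agent.L5helper4.VR
open Pool.Agent.helper132_dc (sk)

/-- the weighted number of solutions of a system with integer coefficients and right-hand side `h` is at most the
mean -/
theorem count_le_h (k Q X : ℕ) [NeZero Q] (hQ : Q.Prime) (w : ℕ → ℝ) (hw : ∀ z, 0 ≤ w z) {M : Type*} [Fintype M]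
    [DecidableEq M] [Nonempty M] (c : M → ℤ) (hc : ∀ b, c b ≠ 0 ∧ |c b| < Q) (h : Fin k → ℤ) :
    ∑ u ∈ (Fintype.piFinset (fun _ : M => range X)).filter
      (fun u => ∀ j : Fin k, ∑ b, c b * (u b : ℤ) ^ (j.val + 1) = h j), ∏ b, w (u b) ≤
      Av k Q X w (Fintype.card M) := by
  classical
  have hQ0 : (0 : ℝ) < (Q : ℝ) ^ k := by
    have : (0 : ℝ) < Q := by exact_mod_cast hQ.pos
    positivity
  have hFact : Fact Q.Prime := ⟨hQ⟩
  obtain ⟨h', hh'⟩ : ∃ h' : Fin k → ZMod Q, h' = fun j => (h j : ZMod Q) := ⟨_, rfl⟩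
  -- expansion
  have h1 : ∀ a : Fin k → ZMod Q, (∏ b : M, G k Q X w ((c b : ZMod Q) • a)) * ch a (-h') =
      ∑ u ∈ Fintype.piFinset (fun _ : M => range X),
        ((∏ b, w (u b) : ℝ) : ℂ) * ch a ((∑ b, (c b : ZMod Q) • mo k Q (u b)) + -h') := by
    intro a
    unfold G
    rw [Finset.prod_univ_sum, Finset.sum_mul]
    apply Finset.sum_congr rfl
    intro u _
    rw [Finset.prod_mul_distrib, ch_add, ch_sum, mul_assoc]
    push_cast
    congr 2
    apply Finset.prod_congr rfl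
    intro b _
    unfold ch
    congr 1
    apply Finset.sum_congr rfl
    intro j _
    rw [Pi.smul_apply, Pi.smul_apply, smul_eq_mul, smul_eq_mul]
    ring
  have h2 : ∑ a : Fin k → ZMod Q, (∏ b : M, G k Q X w ((c b : ZMod Q) • a)) * ch a (-h') =
      (Q : ℂ) ^ k * ((∑ u ∈ (Fintype.piFinset (fun _ : M => range X)).filter
        (fun u => (∑ b, (c b : ZMod Q) • mo k Q (u b)) + -h' = 0), ∏ b, w (u b) : ℝ) : ℂ) := by
    simp only [h1]
    rw [Finset.sum_comm, Finset.sum_filter]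
    push_cast
    rw [Finset.mul_sum]
    apply Finset.sum_congr rfl
    intro u _
    rw [← Finset.mul_sum, orth]
    split_ifs
    · push_cast
      ring
    · simp
  have h3 : ∑ u ∈ (Fintype.piFinset (fun _ : M => range X)).filter
      (fun u => ∀ j : Fin k, ∑ b, c b * (u b : ℤ) ^ (j.val + 1) = h j), ∏ b, w (u b) ≤
      ∑ u ∈ (Fintype.piFinset (fun _ : M => range X)).filter
        (fun u => (∑ b, (c b : ZMod Q) • mo k Q (u b)) + -h' = 0), ∏ b, w (u b) := by
    apply Finset.sum_le_sum_of_subset_of_nonneg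
    · intro u hu
      rw [mem_filter] at hu ⊢
      refine ⟨hu.1, ?_⟩
      funext j
      rw [Pi.add_apply, Pi.neg_apply, Finset.sum_apply, Pi.zero_apply, hh']
      have h4 := congrArg (fun x : ℤ => (x : ZMod Q)) (hu.2 j)
      dsimp only at h4 ⊢
      rw [← h4]
      push_cast
      rw [← sub_eq_add_neg, sub_eq_zero]
      apply Finset.sum_congr rfl
      intro b _
      rw [Pi.smul_apply, smul_eq_mul]
      unfold mo
      rfl
    · intro u _ _
      exact Finset.prod_nonneg fun b _ => hw _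
  obtain ⟨S, hS⟩ : ∃ S : ℝ, S = ∑ u ∈ (Fintype.piFinset (fun _ : M => range X)).filter
        (fun u => (∑ b, (c b : ZMod Q) • mo k Q (u b)) + -h' = 0), ∏ b, w (u b) := ⟨_, rfl⟩
  rw [← hS] at h2 h3
  have hS0 : 0 ≤ S := by
    rw [hS]
    exact Finset.sum_nonneg fun u _ => Finset.prod_nonneg fun b _ => hw _
  -- the arithmetic-geometric mean
  obtain ⟨m, hm⟩ : ∃ m, m = Fintype.card M := ⟨_, rfl⟩
  have hm0 : 0 < m := by rw [hm]; exact Fintype.card_pos
  have hmr : (0 : ℝ) < m := by exact_mod_cast hm0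
  have h4 : ∀ a : Fin k → ZMod Q, ∏ b : M, ‖G k Q X w ((c b : ZMod Q) • a)‖ ≤
      ∑ b : M, (1 / (m : ℝ)) * ‖G k Q X w ((c b : ZMod Q) • a)‖ ^ m := by
    intro a
    have h5 := Real.geom_mean_le_arith_mean_weighted (Finset.univ : Finset M) (fun _ => 1 / (m : ℝ))
      (fun b => ‖G k Q X w ((c b : ZMod Q) • a)‖ ^ m) (fun _ _ => by positivity)
      (by rw [Finset.sum_const, Finset.card_univ, ← hm, nsmul_eq_mul]; field_simp)
      (fun _ _ => by positivity)
    refine le_trans (le_of_eq ?_) h5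
    apply Finset.prod_congr rfl
    intro b _
    rw [← Real.rpow_natCast, ← Real.rpow_mul (norm_nonneg _)]
    rw [mul_one_div, div_self hmr.ne', Real.rpow_one]
  have h6 : ∀ b : M, ∑ a : Fin k → ZMod Q, ‖G k Q X w ((c b : ZMod Q) • a)‖ ^ m =
      ∑ a : Fin k → ZMod Q, ‖G k Q X w a‖ ^ m := by
    intro b
    have hcb : (c b : ZMod Q) ≠ 0 := by
      intro h0
      rw [ZMod.intCast_zmod_eq_zero_iff_dvd] at h0
      have h7 := Int.eq_zero_of_abs_lt_dvd h0 (hc b).2
      exact (hc b).1 h7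
    exact (Equiv.sum_comp (Equiv.smulRight hcb : (Fin k → ZMod Q) ≃ (Fin k → ZMod Q))
      (fun a => ‖G k Q X w a‖ ^ m))
  rw [← hm]
  refine h3.trans ?_
  unfold Av
  rw [le_div_iff₀ hQ0]
  have h7 : S * (Q : ℝ) ^ k = ‖∑ a : Fin k → ZMod Q, (∏ b : M, G k Q X w ((c b : ZMod Q) • a)) * ch a (-h')‖ := by
    rw [h2, norm_mul, norm_pow, Complex.norm_natCast, Complex.norm_real, Real.norm_of_nonneg hS0, mul_comm]
  rw [h7]
  calc ‖∑ a : Fin k → ZMod Q, (∏ b : M, G k Q X w ((c b : ZMod Q) • a)) * ch a (-h')‖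
      ≤ ∑ a : Fin k → ZMod Q, ‖(∏ b : M, G k Q X w ((c b : ZMod Q) • a)) * ch a (-h')‖ := norm_sum_le _ _
    _ = ∑ a : Fin k → ZMod Q, ∏ b : M, ‖G k Q X w ((c b : ZMod Q) • a)‖ := by
        apply Finset.sum_congr rfl
        intro a _
        rw [norm_mul, ch_norm, mul_one, norm_prod]
    _ ≤ ∑ a : Fin k → ZMod Q, ∑ b : M, (1 / (m : ℝ)) * ‖G k Q X w ((c b : ZMod Q) • a)‖ ^ m :=
        Finset.sum_le_sum fun a _ => h4 a
    _ = ∑ b : M, (1 / (m : ℝ)) * ∑ a : Fin k → ZMod Q, ‖G k Q X w ((c b : ZMod Q) • a)‖ ^ m := by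
        rw [Finset.sum_comm]
        apply Finset.sum_congr rfl
        intro b _
        rw [← Finset.mul_sum]
    _ = ∑ a : Fin k → ZMod Q, ‖G k Q X w a‖ ^ m := by
        rw [Finset.sum_congr rfl (fun b _ => by rw [h6 b])]
        rw [Finset.sum_const, Finset.card_univ, ← hm, nsmul_eq_mul]
        field_simp

end Pool.Agent.L5helper4.VS
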