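import Pool.Agent.L5helper4.VS.S1

set_option autoImplicit false

/-!
# The weighted number of representations at one scale
-/

open Finset

namespace Pool.Agent.L5helper4.VS

open Pool.Agent.L5helper4.VR
open Pool.Agent.helper132_dc (sk)

/-- the solutions at the scale `2 ^ L` -/
def SC {j : ℕ} (k D : ℕ) (c : Fin j → ℕ) (h : Fin k → ℕ) (L : ℕ) : Finset (Fin j → ℕ) :=
  (Fintype.piFinset (fun _ : Fin j => Ico 1 (2 ^ L))).filter
    (fun u => (∀ i : Fin k, ∑ b, c b * u b ^ (i.val + 1) = h i) ∧ ∃ b, 2 ^ L ≤ D * u b)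

theorem wt (k j : ℕ) (hk : 1 ≤ k) (hj : 1 ≤ j) (a : ℝ) (ha : 1 / 2 < a) (ha1 : a < 1) (hjk : (1 - a) * j < sk k)
    (C0 : ℝ) (hC0 : 0 ≤ C0) (D : ℕ) (hD : 1 ≤ D) (c : Fin j → ℕ) (hc : ∀ b, 1 ≤ c b) :
    ∃ C γ : ℝ, 1 ≤ C ∧ 0 < γ ∧ ∀ L : ℕ, ∀ p : ℕ → ℝ, (∀ z, 0 ≤ p z) →
      (∀ z : ℕ, 1 ≤ z → z < 2 ^ L → p z ≤ C0 * (z : ℝ) ^ (-a)) → ∀ h : Fin k → ℕ,
      ∑ u ∈ SC k D c h L, ∏ b, p (u b) ≤ C * (2 : ℝ) ^ (-(L * γ)) := by
  classical
  have hj0 : (0 : ℝ) < j := by exact_mod_cast hj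
  obtain ⟨δ, hδ⟩ : ∃ δ : ℝ, δ = min (a - 1 / 2) (((sk k : ℝ) - (1 - a) * j) / j) := ⟨_, rfl⟩
  have hδ0 : 0 < δ := by
    rw [hδ]
    apply lt_min (by linarith)
    apply div_pos (by linarith) hj0
  have hδ1 : δ ≤ a - 1 / 2 := by rw [hδ]; exact min_le_left _ _
  have hδ2 : δ * j ≤ (sk k : ℝ) - (1 - a) * j := by
    rw [← le_div_iff₀ hj0, hδ]
    exact min_le_right _ _
  obtain ⟨a', ha'⟩ : ∃ a' : ℝ, a' = a - δ := ⟨_, rfl⟩
  have ha'1 : 1 / 2 ≤ a' := by linarith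
  have ha'2 : a' < 1 := by linarith
  have hBx : max 0 (Bx k j - a' * j) = 0 := by
    apply max_eq_left
    unfold Bx
    have h1 : max ((j : ℝ) / 2) ((j : ℝ) - sk k) ≤ a' * j := by
      apply max_le
      · nlinarith
      · rw [ha']
        nlinarith
    linarith
  obtain ⟨C1, hC1, hW⟩ := AvW k hk (δ / 4) (by positivity) a'
  obtain ⟨C2, hC2, hP⟩ := poly_le (j + 1) (δ / 4) (by positivity)
  have hDr : (1 : ℝ) ≤ D := by exact_mod_cast hD
  obtain ⟨C3, hC3⟩ : ∃ C3 : ℝ, C3 = C0 ^ j * (D : ℝ) ^ δ * 2 ^ j := ⟨_, rfl⟩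
  have hC30 : 0 ≤ C3 := by rw [hC3]; positivity
  refine ⟨1 + C3 * (C1 * C2), δ / 2, by
    have : 0 ≤ C3 * (C1 * C2) := by positivity
    linarith, by positivity, fun L p hp hpz h => ?_⟩
  -- the prime
  obtain ⟨Q, hQ1, hQ2⟩ := Nat.exists_infinite_primes (sk k * (2 ^ L) ^ k + ∑ b, c b + 1)
  haveI : NeZero Q := ⟨hQ2.ne_zero⟩
  haveI : Nonempty (Fin j) := ⟨⟨0, hj⟩⟩
  have hcount := count_le_h k Q (2 ^ L) hQ2 (W a' L) (W_nonneg a' L) (fun b : Fin j => (c b : ℤ)) (fun b => by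
    have h1 := hc b
    have h2 : c b ≤ ∑ b, c b := Finset.single_le_sum (f := c) (fun _ _ => Nat.zero_le _) (mem_univ b)
    refine ⟨by exact_mod_cast (by omega : c b ≠ 0), ?_⟩
    rw [Nat.abs_cast]
    have h3 : c b < Q := by omega
    exact_mod_cast h3) (fun i => (h i : ℤ))
  rw [Fintype.card_fin] at hcount
  have hAv := hW Q hQ2 L (by omega) j
  rw [hBx, add_zero] at hAv
  have hpl := hP L
  have hAv2 : Av k Q (2 ^ L) (W a' L) j ≤ C1 * C2 * (2 : ℝ) ^ (L * (δ / 2)) := by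
    refine hAv.trans ?_
    calc C1 * ((L : ℝ) + 1) ^ (j + 1) * (2 : ℝ) ^ (L * (δ / 4)) ≤
          C1 * (C2 * (2 : ℝ) ^ (L * (δ / 4))) * (2 : ℝ) ^ (L * (δ / 4)) := by
          apply mul_le_mul_of_nonneg_right _ (by positivity)
          exact mul_le_mul_of_nonneg_left hpl (by linarith)
      _ = C1 * C2 * ((2 : ℝ) ^ (L * (δ / 4)) * (2 : ℝ) ^ (L * (δ / 4))) := by ring
      _ = _ := by
          rw [← Real.rpow_add (by norm_num)]
          congr 2
          ring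
  -- termwise
  have hterm : ∀ u ∈ SC k D c h L, ∏ b, p (u b) ≤ C3 * (2 : ℝ) ^ (-(L * δ)) * ∏ b, W a' L (u b) := by
    intro u hu
    unfold SC at hu
    rw [mem_filter, Fintype.mem_piFinset] at hu
    obtain ⟨hu1, _, b0, hb0⟩ := hu
    have hu2 : ∀ b, 1 ≤ u b ∧ u b < 2 ^ L := fun b => mem_Ico.1 (hu1 b)
    have hur : ∀ b, (1 : ℝ) ≤ u b := fun b => by exact_mod_cast (hu2 b).1
    have h1 : ∏ b, p (u b) ≤ ∏ b, (C0 * (u b : ℝ) ^ (-a)) :=
      Finset.prod_le_prod (fun b _ => hp _) (fun b _ => hpz (u b) (hu2 b).1 (hu2 b).2)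
    have h2 : ∏ b, (C0 * (u b : ℝ) ^ (-a)) = C0 ^ j * ((∏ b, (u b : ℝ) ^ (-a')) * ∏ b, (u b : ℝ) ^ (-δ)) := by
      rw [Finset.prod_mul_distrib, Finset.prod_const, Finset.card_univ, Fintype.card_fin,
        ← Finset.prod_mul_distrib]
      congr 1
      apply Finset.prod_congr rfl
      intro b _
      rw [← Real.rpow_add (by linarith [hur b])]
      congr 1
      rw [ha']
      ring
    have h3 : ∏ b, (u b : ℝ) ^ (-δ) ≤ (D : ℝ) ^ δ * (2 : ℝ) ^ (-(L * δ)) := by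
      have h4 : ∏ b, (u b : ℝ) ^ (-δ) ≤ (u b0 : ℝ) ^ (-δ) := by
        rw [← Finset.mul_prod_erase univ _ (mem_univ b0)]
        apply mul_le_of_le_one_right (by positivity)
        apply Finset.prod_le_one (fun b _ => by positivity)
        intro b _
        exact Real.rpow_le_one_of_one_le_of_nonpos (hur b) (by linarith)
      refine h4.trans ?_
      have h5 : (2 : ℝ) ^ (L : ℝ) ≤ D * u b0 := by
        rw [Real.rpow_natCast]
        exact_mod_cast hb0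
      have h6 : (2 : ℝ) ^ (L : ℝ) / D ≤ u b0 := by
        rw [div_le_iff₀ (by linarith)]
        linarith
      calc (u b0 : ℝ) ^ (-δ) ≤ ((2 : ℝ) ^ (L : ℝ) / D) ^ (-δ) :=
            Real.rpow_le_rpow_of_nonpos (by positivity) h6 (by linarith)
        _ = (D : ℝ) ^ δ * (2 : ℝ) ^ (-(L * δ)) := by
            rw [Real.div_rpow (by positivity) (by positivity), ← Real.rpow_mul (by norm_num),
              Real.rpow_neg (by positivity), div_inv_eq_mul, mul_comm]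
            congr 2
            ring
    have h7 : ∏ b, (u b : ℝ) ^ (-a') ≤ 2 ^ j * ∏ b, W a' L (u b) := by
      calc ∏ b, (u b : ℝ) ^ (-a') ≤ ∏ b, (2 * W a' L (u b)) := by
            apply Finset.prod_le_prod (fun b _ => by positivity)
            intro b _
            exact W_low a' (by linarith) ha'2 L (u b) (hu2 b).1 (hu2 b).2
        _ = _ := by
            rw [Finset.prod_mul_distrib, Finset.prod_const, Finset.card_univ, Fintype.card_fin]
    have h8 : 0 ≤ ∏ b, W a' L (u b) := Finset.prod_nonneg fun b _ => W_nonneg _ _ _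
    calc ∏ b, p (u b) ≤ C0 ^ j * ((∏ b, (u b : ℝ) ^ (-a')) * ∏ b, (u b : ℝ) ^ (-δ)) := h1.trans h2.le
      _ ≤ C0 ^ j * ((2 ^ j * ∏ b, W a' L (u b)) * ((D : ℝ) ^ δ * (2 : ℝ) ^ (-(L * δ)))) := by
          apply mul_le_mul_of_nonneg_left _ (by positivity)
          apply mul_le_mul h7 h3 (Finset.prod_nonneg fun b _ => by positivity) (by positivity)
      _ = _ := by rw [hC3]; ring
  have hsum : ∑ u ∈ SC k D c h L, ∏ b, W a' L (u b) ≤ Av k Q (2 ^ L) (W a' L) j := by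
    refine le_trans ?_ hcount
    apply Finset.sum_le_sum_of_subset_of_nonneg
    · intro u hu
      unfold SC at hu
      rw [mem_filter, Fintype.mem_piFinset] at hu
      obtain ⟨hu1, hu2, _⟩ := hu
      rw [mem_filter, Fintype.mem_piFinset]
      refine ⟨fun b => ?_, fun i => ?_⟩
      · have := mem_Ico.1 (hu1 b)
        exact mem_range.2 this.2
      · have := hu2 i
        exact_mod_cast this
    · intro u _ _
      exact Finset.prod_nonneg fun b _ => W_nonneg _ _ _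
  calc ∑ u ∈ SC k D c h L, ∏ b, p (u b) ≤ ∑ u ∈ SC k D c h L, C3 * (2 : ℝ) ^ (-(L * δ)) * ∏ b, W a' L (u b) :=
        Finset.sum_le_sum hterm
    _ = C3 * (2 : ℝ) ^ (-(L * δ)) * ∑ u ∈ SC k D c h L, ∏ b, W a' L (u b) := by rw [← Finset.mul_sum]
    _ ≤ C3 * (2 : ℝ) ^ (-(L * δ)) * (C1 * C2 * (2 : ℝ) ^ (L * (δ / 2))) :=
        mul_le_mul_of_nonneg_left (hsum.trans hAv2) (by positivity)
    _ = C3 * (C1 * C2) * ((2 : ℝ) ^ (-(L * δ)) * (2 : ℝ) ^ (L * (δ / 2))) := by ring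
    _ = C3 * (C1 * C2) * (2 : ℝ) ^ (-(L * (δ / 2))) := by
        rw [← Real.rpow_add (by norm_num)]
        congr 2
        ring
    _ ≤ (1 + C3 * (C1 * C2)) * (2 : ℝ) ^ (-(L * (δ / 2))) := by
        apply mul_le_mul_of_nonneg_right _ (by positivity)
        linarith

end Pool.Agent.L5helper4.VS
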