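import Pool.Agent.L5helper4.VS.S2

set_option autoImplicit false

/-!
# Almost surely there are no large families of disjoint solutions
-/

open Finset MeasureTheory ProbabilityTheory Filter

namespace Pool.Agent.L5helper4.VS

open Pool.Agent.L5helper4.VR
open Pool.Agent.helper132_dc (sk)

/-- a family of `m` disjoint solutions at the scale `2 ^ L`, all of whose entries are chosen -/
def Fam {Ω : Type} (E : ℕ → Set Ω) {j : ℕ} (k D : ℕ) (c : Fin j → ℕ) (m L : ℕ) (ω : Ω) : Prop :=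
  ∃ h : Fin k → ℕ, ∃ v : Fin m → Fin j → ℕ, (∀ i, v i ∈ SC k D c h L) ∧
    Function.Injective (fun q : Fin m × Fin j => v q.1 q.2) ∧ ∀ i b, ω ∈ E (v i b)

theorem fam_prob (k j : ℕ) (D : ℕ) (c : Fin j → ℕ) (a C0 C γ : ℝ) (hC : 1 ≤ C)
    (hwt : ∀ L : ℕ, ∀ p : ℕ → ℝ, (∀ z, 0 ≤ p z) →
      (∀ z : ℕ, 1 ≤ z → z < 2 ^ L → p z ≤ C0 * (z : ℝ) ^ (-a)) → ∀ h : Fin k → ℕ,
      ∑ u ∈ SC k D c h L, ∏ b, p (u b) ≤ C * (2 : ℝ) ^ (-(L * γ)))
    (m : ℕ) (hm : 1 ≤ m) (hm2 : (k : ℝ) * k + 1 ≤ γ * m)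
    {Ω : Type} [MeasurableSpace Ω] (μ : Measure Ω) [IsProbabilityMeasure μ] (E : ℕ → Set Ω)
    (hI : iIndepSet E μ)
    (hp : ∀ n : ℕ, 1 ≤ n → μ.real (E n) ≤ C0 * (n : ℝ) ^ (-a)) (L : ℕ) :
    μ {ω | Fam E k D c m L ω} ≤ ENNReal.ofReal ((((∑ b, c b : ℕ) : ℝ) + 1) ^ k * C ^ m * (2 : ℝ) ^ (-(L * (1 : ℝ)))) := by
  classical
  obtain ⟨H, hH⟩ : ∃ H : Finset (Fin k → ℕ), H = Fintype.piFinset (fun _ : Fin k => range ((∑ b, c b) * (2 ^ L) ^ k + 1)) :=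
    ⟨_, rfl⟩
  obtain ⟨V, hV⟩ : ∃ V : (Fin k → ℕ) → Finset (Fin m → Fin j → ℕ), V = fun h =>
    (Fintype.piFinset (fun _ : Fin m => SC k D c h L)).filter
      (fun v => Function.Injective (fun q : Fin m × Fin j => v q.1 q.2)) := ⟨_, rfl⟩
  have hsub : {ω | Fam E k D c m L ω} ⊆ ⋃ h ∈ H, ⋃ v ∈ V h, ⋂ z ∈ univ.image (fun q : Fin m × Fin j => v q.1 q.2), E z := by
    intro ω hω
    rw [Set.mem_ofPred_eq] at hω
    obtain ⟨h, v, hv1, hv2, hv3⟩ := hω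
    simp only [Set.mem_iUnion, Set.mem_iInter]
    refine ⟨h, ?_, v, ?_, ?_⟩
    · rw [hH, Fintype.mem_piFinset]
      intro i
      rw [mem_range]
      have h1 := hv1 ⟨0, hm⟩
      unfold SC at h1
      rw [mem_filter, Fintype.mem_piFinset] at h1
      obtain ⟨h2, h3, _⟩ := h1
      rw [← h3 i]
      have h4 : ∑ b, c b * v ⟨0, hm⟩ b ^ (i.val + 1) ≤ (∑ b, c b) * (2 ^ L) ^ k := by
        rw [Finset.sum_mul]
        apply Finset.sum_le_sum
        intro b _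
        apply Nat.mul_le_mul_left
        have h5 := mem_Ico.1 (h2 b)
        calc v ⟨0, hm⟩ b ^ (i.val + 1) ≤ (2 ^ L) ^ (i.val + 1) := Nat.pow_le_pow_left h5.2.le _
          _ ≤ (2 ^ L) ^ k := Nat.pow_le_pow_right Nat.one_le_two_pow i.2
      omega
    · rw [hV, mem_filter, Fintype.mem_piFinset]
      exact ⟨hv1, hv2⟩
    · intro z hz
      rw [mem_image] at hz
      obtain ⟨q, _, rfl⟩ := hz
      exact hv3 q.1 q.2
  refine (measure_mono hsub).trans ?_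
  have h1 : μ (⋃ h ∈ H, ⋃ v ∈ V h, ⋂ z ∈ univ.image (fun q : Fin m × Fin j => v q.1 q.2), E z) ≤
      ∑ h ∈ H, ∑ v ∈ V h, ENNReal.ofReal (∏ i, ∏ b, μ.real (E (v i b))) := by
    refine (measure_biUnion_finset_le H _).trans ?_
    apply Finset.sum_le_sum
    intro h _
    refine (measure_biUnion_finset_le (V h) _).trans ?_
    apply Finset.sum_le_sum
    intro v hv
    rw [hV, mem_filter] at hv
    rw [hI.meas_biInter, Finset.prod_image (fun x _ y _ hxy => hv.2 hxy), ← Fintype.prod_prod_type',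
      ENNReal.ofReal_prod_of_nonneg (fun z _ => measureReal_nonneg)]
    apply le_of_eq
    apply Finset.prod_congr rfl
    intro q _
    rw [ofReal_measureReal]
  refine h1.trans ?_
  have h2 : ∑ h ∈ H, ∑ v ∈ V h, ENNReal.ofReal (∏ i, ∏ b, μ.real (E (v i b))) =
      ENNReal.ofReal (∑ h ∈ H, ∑ v ∈ V h, ∏ i, ∏ b, μ.real (E (v i b))) := by
    rw [ENNReal.ofReal_sum_of_nonneg (fun h _ => Finset.sum_nonneg fun v _ => Finset.prod_nonneg fun i _ =>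
      Finset.prod_nonneg fun b _ => measureReal_nonneg)]
    apply Finset.sum_congr rfl
    intro h _
    rw [ENNReal.ofReal_sum_of_nonneg (fun v _ => Finset.prod_nonneg fun i _ =>
      Finset.prod_nonneg fun b _ => measureReal_nonneg)]
  rw [h2]
  apply ENNReal.ofReal_le_ofReal
  have h3 : ∀ h ∈ H, ∑ v ∈ V h, ∏ i, ∏ b, μ.real (E (v i b)) ≤ (C * (2 : ℝ) ^ (-(L * γ))) ^ m := by
    intro h _
    have h4 := hwt L (fun z => μ.real (E z)) (fun z => measureReal_nonneg) (fun z hz _ => hp z hz) h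
    have h5 : ∑ v ∈ V h, ∏ i, ∏ b, μ.real (E (v i b)) ≤
        ∑ v ∈ Fintype.piFinset (fun _ : Fin m => SC k D c h L), ∏ i, ∏ b, μ.real (E (v i b)) := by
      apply Finset.sum_le_sum_of_subset_of_nonneg
      · rw [hV]
        exact Finset.filter_subset _ _
      · intro v _ _
        exact Finset.prod_nonneg fun i _ => Finset.prod_nonneg fun b _ => measureReal_nonneg
    refine h5.trans ?_
    have h6 := Finset.prod_univ_sum (fun _ : Fin m => SC k D c h L) (fun _ u => ∏ b, μ.real (E (u b)))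
    rw [Finset.prod_const, Finset.card_univ, Fintype.card_fin] at h6
    rw [← h6]
    exact pow_le_pow_left₀ (Finset.sum_nonneg fun u _ => Finset.prod_nonneg fun b _ => measureReal_nonneg) h4 m
  refine (Finset.sum_le_sum h3).trans ?_
  rw [Finset.sum_const, nsmul_eq_mul]
  have hHc : (H.card : ℝ) ≤ (((∑ b, c b : ℕ) : ℝ) + 1) ^ k * (2 : ℝ) ^ (L * ((k : ℝ) * k)) := by
    rw [hH, Fintype.card_piFinset, Finset.prod_const, Finset.card_univ, Fintype.card_fin, card_range]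
    have h7 : (∑ b, c b) * (2 ^ L) ^ k + 1 ≤ (∑ b, c b + 1) * (2 ^ L) ^ k := by
      have : 1 ≤ (2 ^ L) ^ k := Nat.one_le_pow _ _ (by positivity)
      nlinarith
    have h8 : ((((∑ b, c b) * (2 ^ L) ^ k + 1) ^ k : ℕ) : ℝ) ≤ ((((∑ b, c b + 1) * (2 ^ L) ^ k) ^ k : ℕ) : ℝ) := by
      exact_mod_cast Nat.pow_le_pow_left h7 k
    refine h8.trans (le_of_eq ?_)
    rw [Real.rpow_mul (by norm_num), Real.rpow_natCast, Real.rpow_mul (by positivity), Real.rpow_natCast,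
      Real.rpow_natCast]
    push_cast
    rw [mul_pow]
  calc (H.card : ℝ) * (C * (2 : ℝ) ^ (-(L * γ))) ^ m ≤
        ((((∑ b, c b : ℕ) : ℝ) + 1) ^ k * (2 : ℝ) ^ (L * ((k : ℝ) * k))) * (C * (2 : ℝ) ^ (-(L * γ))) ^ m :=
        mul_le_mul_of_nonneg_right hHc (by positivity)
    _ = (((∑ b, c b : ℕ) : ℝ) + 1) ^ k * C ^ m * (2 : ℝ) ^ (L * ((k : ℝ) * k - γ * m)) := by
        rw [mul_pow, ← Real.rpow_natCast ((2 : ℝ) ^ (-(L * γ))), ← Real.rpow_mul (by norm_num)]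
        rw [mul_mul_mul_comm, ← Real.rpow_add (by norm_num)]
        congr 2
        ring
    _ ≤ (((∑ b, c b : ℕ) : ℝ) + 1) ^ k * C ^ m * (2 : ℝ) ^ (-(L * (1 : ℝ))) := by
        apply mul_le_mul_of_nonneg_left _ (by positivity)
        apply Real.rpow_le_rpow_of_exponent_le (by norm_num)
        have hL : (0 : ℝ) ≤ L := by positivity
        nlinarith

/-- the solutions with chosen entries -/
def Sol {j k : ℕ} (A : Set ℕ) (c : Fin j → ℕ) (h : Fin k → ℕ) (u : Fin j → ℕ) : Prop :=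
  (∀ b, 1 ≤ u b ∧ u b ∈ A) ∧ ∀ i : Fin k, ∑ b, c b * u b ^ (i.val + 1) = h i

/-- almost surely there are no large families of disjoint solutions -/
theorem fam_ae {Ω : Type} [MeasurableSpace Ω] (μ : Measure Ω) [IsProbabilityMeasure μ] (E : ℕ → Set Ω)
    (hI : iIndepSet E μ) (a C0 : ℝ)
    (hp : ∀ n : ℕ, 1 ≤ n → μ.real (E n) ≤ C0 * (n : ℝ) ^ (-a)) (k j : ℕ) (hk : 1 ≤ k) (hj : 1 ≤ j)
    (c : Fin j → ℕ) (hc : ∀ b, 1 ≤ c b)
    (hW : ∀ D : ℕ, 1 ≤ D → ∃ C γ : ℝ, 1 ≤ C ∧ 0 < γ ∧ ∀ L : ℕ, ∀ p : ℕ → ℝ, (∀ z, 0 ≤ p z) →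
      (∀ z : ℕ, 1 ≤ z → z < 2 ^ L → p z ≤ C0 * (z : ℝ) ^ (-a)) → ∀ h : Fin k → ℕ,
      ∑ u ∈ SC k D c h L, ∏ b, p (u b) ≤ C * (2 : ℝ) ^ (-(L * γ))) :
    ∀ᵐ ω ∂μ, ∃ m : ℕ, ∀ h : Fin k → ℕ, ¬ ∃ v : Fin m → Fin j → ℕ,
      Function.Injective (fun q : Fin m × Fin j => v q.1 q.2) ∧ ∀ i, Sol {n | ω ∈ E n} c h (v i) := by
  classical
  obtain ⟨D, hD⟩ : ∃ D : ℕ, D = 2 * ∑ b, c b := ⟨_, rfl⟩
  have hcs : 1 ≤ ∑ b, c b := by
    have : c ⟨0, hj⟩ ≤ ∑ b, c b := Finset.single_le_sum (f := c) (fun _ _ => Nat.zero_le _) (mem_univ _)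
    have := hc ⟨0, hj⟩
    omega
  obtain ⟨C, γ, hC, hγ, hwt⟩ := hW D (by omega)
  obtain ⟨m, hm⟩ := exists_nat_ge (((k : ℝ) * k + 1) / γ)
  rw [div_le_iff₀ hγ, mul_comm] at hm
  have hm2 : (k : ℝ) * k + 1 ≤ γ * ((m + 1 : ℕ) : ℝ) := by
    push_cast
    nlinarith
  have h1 := bc μ (fun L => {ω | Fam E k D c (m + 1) L ω}) _ 1 (by norm_num) (fun L _ =>
    fam_prob k j D c a C0 C γ hC hwt (m + 1) (by omega) hm2 μ E hI hp L)
  filter_upwards [h1] with ω hω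
  rw [eventually_atTop] at hω
  obtain ⟨L0, hL0⟩ := hω
  refine ⟨(m + 1) + 2 ^ L0, fun h => ?_⟩
  rintro ⟨v, hv1, hv2⟩
  -- the scale
  obtain ⟨T, hT⟩ : ∃ T, T = h ⟨k - 1, by omega⟩ := ⟨_, rfl⟩
  have hTv : ∀ i, ∑ b, c b * v i b ^ k = T := by
    intro i
    have h2 := (hv2 i).2 ⟨k - 1, by omega⟩
    dsimp only at h2
    rw [Nat.sub_add_cancel hk] at h2
    rw [h2, hT]
  have hpos : 0 < (m + 1) + 2 ^ L0 := by positivity
  have hT1 : 1 ≤ T := by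
    rw [← hTv ⟨0, hpos⟩]
    have h2 : c ⟨0, hj⟩ * v ⟨0, hpos⟩ ⟨0, hj⟩ ^ k ≤ ∑ b, c b * v ⟨0, hpos⟩ b ^ k :=
      Finset.single_le_sum (f := fun b => c b * v ⟨0, hpos⟩ b ^ k) (fun _ _ => Nat.zero_le _) (mem_univ _)
    have h3 : 1 ≤ v ⟨0, hpos⟩ ⟨0, hj⟩ ^ k := Nat.one_le_pow _ _ ((hv2 _).1 _).1
    have h4 := hc ⟨0, hj⟩
    nlinarith
  obtain ⟨L, hL⟩ : ∃ L, L = Nat.log (2 ^ k) T + 1 := ⟨_, rfl⟩
  have h2k : 1 < 2 ^ k := Nat.one_lt_two_pow (by omega)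
  have hTL : (2 ^ k) ^ (L - 1) ≤ T := by
    rw [hL, Nat.add_sub_cancel]
    exact Nat.pow_log_le_self _ (by omega)
  have hTU : T < (2 ^ k) ^ L := by
    rw [hL]
    exact Nat.lt_pow_succ_log_self h2k _
  have hSC : ∀ i, v i ∈ SC k D c h L := by
    intro i
    unfold SC
    rw [mem_filter, Fintype.mem_piFinset]
    refine ⟨fun b => ?_, (hv2 i).2, ?_⟩
    · rw [mem_Ico]
      refine ⟨((hv2 i).1 b).1, ?_⟩
      have h3 : c b * v i b ^ k ≤ T := by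
        rw [← hTv i]
        exact Finset.single_le_sum (f := fun b => c b * v i b ^ k) (fun _ _ => Nat.zero_le _) (mem_univ _)
      have h4 : v i b ^ k ≤ c b * v i b ^ k := Nat.le_mul_of_pos_left _ (hc b)
      have h5 : v i b ^ k < (2 ^ L) ^ k := by
        calc v i b ^ k ≤ T := h4.trans h3
          _ < (2 ^ k) ^ L := hTU
          _ = (2 ^ L) ^ k := by rw [← pow_mul, ← pow_mul, mul_comm]
      exact lt_of_pow_lt_pow_left₀ k (Nat.zero_le _) h5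
    · by_contra hcon
      push Not at hcon
      have h3 : ∀ b, v i b ^ k * D ^ k < (2 ^ L) ^ k := by
        intro b
        rw [← mul_pow]
        have h4 := hcon b
        rw [mul_comm] at h4
        exact Nat.pow_lt_pow_left h4 (by omega)
      have h4 : T * D ^ k < (∑ b, c b) * (2 ^ L) ^ k := by
        rw [← hTv i, Finset.sum_mul, Finset.sum_mul]
        apply Finset.sum_lt_sum_of_nonempty ⟨⟨0, hj⟩, mem_univ _⟩
        intro b _
        rw [mul_assoc]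
        exact Nat.mul_lt_mul_of_pos_left (h3 b) (hc b)
      have h5 : (2 ^ L) ^ k = 2 ^ k * (2 ^ k) ^ (L - 1) := by
        rw [← pow_succ', Nat.sub_add_cancel (by omega), ← pow_mul, ← pow_mul, mul_comm]
      have h6 : (∑ b, c b) * (2 ^ L) ^ k ≤ T * D ^ k := by
        rw [h5, hD, mul_pow]
        calc (∑ b, c b) * (2 ^ k * (2 ^ k) ^ (L - 1)) ≤ (∑ b, c b) ^ k * (2 ^ k * T) := by
              apply Nat.mul_le_mul (Nat.le_self_pow (by omega) _) (Nat.mul_le_mul_left _ hTL)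
          _ = T * (2 ^ k * (∑ b, c b) ^ k) := by ring
      omega
  rcases Nat.lt_or_ge L L0 with hlt | hge
  · -- few elements
    have h3 : Fintype.card (Fin ((m + 1) + 2 ^ L0) × Fin j) ≤ (Ico 1 (2 ^ L)).card := by
      rw [← Finset.card_univ, ← Finset.card_image_of_injective univ hv1]
      apply Finset.card_le_card
      intro z hz
      rw [mem_image] at hz
      obtain ⟨q, _, rfl⟩ := hz
      have h4 := hSC q.1
      unfold SC at h4
      rw [mem_filter, Fintype.mem_piFinset] at h4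
      exact h4.1 q.2
    rw [Fintype.card_prod, Fintype.card_fin, Fintype.card_fin, Nat.card_Ico] at h3
    have h4 : 2 ^ L ≤ 2 ^ L0 := Nat.pow_le_pow_right (by norm_num) hlt.le
    have h5 : (m + 1) + 2 ^ L0 ≤ ((m + 1) + 2 ^ L0) * j := Nat.le_mul_of_pos_right _ hj
    have : 0 < 2 ^ L := by positivity
    omega
  · apply hL0 L hge
    have hle : m + 1 ≤ m + 1 + 2 ^ L0 := Nat.le_add_right _ _
    refine ⟨h, fun i => v (Fin.castLE hle i), fun i => hSC _, ?_, fun i b => ((hv2 _).1 b).2⟩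
    intro q q' hqq
    have h3 := @hv1 (Fin.castLE hle q.1, q.2) (Fin.castLE hle q'.1, q'.2) hqq
    rw [Prod.mk.injEq] at h3
    exact Prod.ext (Fin.castLE_injective _ h3.1) h3.2

end Pool.Agent.L5helper4.VS
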