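import Pool.Agent.L5helper4.VS.S3

set_option autoImplicit false

/-!
# From disjoint families to the number of representations
-/

open Finset

namespace Pool.Agent.L5helper4.VS

/-- either many disjoint solutions, or a small set that all solutions meet -/
lemma hit {j : ℕ} (P : (Fin j → ℕ) → Prop) (hP : ∀ u, P u → Function.Injective u) : ∀ n : ℕ,
    (∃ v : Fin n → Fin j → ℕ, Function.Injective (fun q : Fin n × Fin j => v q.1 q.2) ∧ ∀ i, P (v i)) ∨
    ∃ U : Finset ℕ, U.card ≤ n * j ∧ ∀ u, P u → ∃ b, u b ∈ U := by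
  classical
  intro n
  induction n with
  | zero =>
    left
    refine ⟨fun i => i.elim0, ?_, fun i => i.elim0⟩
    intro q
    exact q.1.elim0
  | succ n ih =>
    rcases ih with ⟨v, hv1, hv2⟩ | ⟨U, hU1, hU2⟩
    · by_cases h : ∀ u, P u → ∃ b, u b ∈ univ.image (fun q : Fin n × Fin j => v q.1 q.2)
      · right
        refine ⟨univ.image (fun q : Fin n × Fin j => v q.1 q.2), ?_, h⟩
        refine Finset.card_image_le.trans ?_
        rw [Finset.card_univ, Fintype.card_prod, Fintype.card_fin, Fintype.card_fin]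
        nlinarith
      · left
        push Not at h
        obtain ⟨u, hu1, hu2⟩ := h
        refine ⟨Fin.cons u v, ?_, ?_⟩
        · rintro ⟨i, b⟩ ⟨i', b'⟩ hqq
          dsimp only at hqq
          revert hqq
          refine Fin.cases ?_ (fun i => ?_) i <;> refine Fin.cases ?_ (fun i' => ?_) i'
          · intro hqq
            rw [Fin.cons_zero] at hqq
            rw [hP u hu1 hqq]
          · intro hqq
            rw [Fin.cons_zero, Fin.cons_succ] at hqq
            exfalso
            apply hu2 b
            rw [hqq]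
            exact mem_image.2 ⟨(i', b'), mem_univ _, rfl⟩
          · intro hqq
            rw [Fin.cons_zero, Fin.cons_succ] at hqq
            exfalso
            apply hu2 b'
            rw [← hqq]
            exact mem_image.2 ⟨(i, b), mem_univ _, rfl⟩
          · intro hqq
            rw [Fin.cons_succ, Fin.cons_succ] at hqq
            have h3 := @hv1 (i, b) (i', b') hqq
            rw [Prod.mk.injEq] at h3
            rw [h3.1, h3.2]
        · intro i
          refine Fin.cases ?_ (fun i => ?_) i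
          · rw [Fin.cons_zero]
            exact hu1
          · rw [Fin.cons_succ]
            exact hv2 i
    · right
      exact ⟨U, hU1.trans (Nat.mul_le_mul_right _ (by omega)), hU2⟩

/-- the number of injective solutions -/
theorem inj_bound (k J : ℕ) (A : Set ℕ) (hA : ∀ j : ℕ, 1 ≤ j → j ≤ J → ∀ c : Fin j → ℕ, (∀ b, 1 ≤ c b) →
    ∃ m : ℕ, ∀ h : Fin k → ℕ, ¬ ∃ v : Fin m → Fin j → ℕ,
      Function.Injective (fun q : Fin m × Fin j => v q.1 q.2) ∧ ∀ i, Sol A c h (v i)) :
    ∀ j : ℕ, j ≤ J → ∀ c : Fin j → ℕ, (∀ b, 1 ≤ c b) → ∃ g : ℕ, ∀ h : Fin k → ℕ, ∀ F : Finset (Fin j → ℕ),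
      (∀ u ∈ F, Function.Injective u ∧ Sol A c h u) → F.card ≤ g := by
  classical
  intro j
  induction j with
  | zero =>
    intro _ c _
    refine ⟨1, fun h F _ => ?_⟩
    refine Finset.card_le_one.2 fun u _ u' _ => ?_
    exact Subsingleton.elim _ _
  | succ j ih =>
    intro hj c hc
    obtain ⟨m, hm⟩ := hA (j + 1) (by omega) hj c hc
    have ih' : ∀ b : Fin (j + 1), ∃ g : ℕ, ∀ h : Fin k → ℕ, ∀ F : Finset (Fin j → ℕ),
      (∀ u ∈ F, Function.Injective u ∧ Sol A (fun b' => c (b.succAbove b')) h u) → F.card ≤ g := fun b =>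
      ih (by omega) (fun b' => c (b.succAbove b')) (fun b' => hc _)
    choose g hg using ih'
    refine ⟨(j + 1) * (m * (j + 1)) * ∑ b, g b, fun h F hF => ?_⟩
    have h1 := hit (fun u : Fin (j + 1) → ℕ => Function.Injective u ∧ Sol A c h u) (fun u hu => hu.1) m
    rcases h1 with ⟨v, hv1, hv2⟩ | ⟨U, hU1, hU2⟩
    · exact absurd ⟨v, hv1, fun i => (hv2 i).2⟩ (hm h)
    · have h2 : F ⊆ ((univ : Finset (Fin (j + 1))) ×ˢ U).biUnion (fun q => F.filter (fun u => u q.1 = q.2)) := by
        intro u hu
        obtain ⟨b, hb⟩ := hU2 u (hF u hu)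
        rw [mem_biUnion]
        exact ⟨(b, u b), mem_product.2 ⟨mem_univ _, hb⟩, mem_filter.2 ⟨hu, rfl⟩⟩
      have h3 : ∀ q ∈ (univ : Finset (Fin (j + 1))) ×ˢ U, (F.filter (fun u => u q.1 = q.2)).card ≤ ∑ b, g b := by
        rintro ⟨b, z⟩ _
        dsimp only
        have h4 : ((F.filter (fun u => u b = z)).image (fun u => fun b' => u (b.succAbove b'))).card ≤ g b := by
          apply hg b (fun i => h i - c b * z ^ (i.val + 1))
          intro w hw
          rw [mem_image] at hw
          obtain ⟨u, hu, rfl⟩ := hw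
          rw [mem_filter] at hu
          obtain ⟨hu1, hu2⟩ := hu
          obtain ⟨hu3, hu4, hu5⟩ := hF u hu1
          refine ⟨fun x y hxy => b.succAbove_right_injective (hu3 hxy), fun b' => hu4 _, fun i => ?_⟩
          have h5 := hu5 i
          rw [Fin.sum_univ_succAbove _ b, hu2] at h5
          dsimp only
          omega
        rw [Finset.card_image_of_injOn] at h4
        · exact h4.trans (Finset.single_le_sum (f := g) (fun _ _ => Nat.zero_le _) (mem_univ b))
        · intro u hu u' hu' huu
          rw [mem_coe, mem_filter] at hu hu'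
          funext b'
          by_cases hb : b' = b
          · rw [hb, hu.2, hu'.2]
          · obtain ⟨b'', rfl⟩ := Fin.exists_succAbove_eq hb
            exact congrFun huu b''
      refine (Finset.card_le_card h2).trans ?_
      refine (Finset.card_biUnion_le_card_mul _ _ _ h3).trans ?_
      rw [Finset.card_product, Finset.card_univ, Fintype.card_fin]
      apply Nat.mul_le_mul_right
      exact Nat.mul_le_mul_left _ hU1

/-- the number of all solutions -/
theorem all_bound (k s : ℕ) (A : Set ℕ) (hA : ∀ j : ℕ, 1 ≤ j → j ≤ s → ∀ c : Fin j → ℕ, (∀ b, 1 ≤ c b) →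
    ∃ m : ℕ, ∀ h : Fin k → ℕ, ¬ ∃ v : Fin m → Fin j → ℕ,
      Function.Injective (fun q : Fin m × Fin j => v q.1 q.2) ∧ ∀ i, Sol A c h (v i)) :
    ∃ g : ℕ, ∀ h : Fin k → ℕ, ∀ F : Finset (Fin s → ℕ), (∀ u ∈ F, Sol A (fun _ => 1) h u) → F.card ≤ g := by
  classical
  have hb := inj_bound k s A hA
  have h1 : ∀ q : (Σ j : Fin (s + 1), (Fin s → Fin j)), ∃ g : ℕ, ∀ h : Fin k → ℕ, ∀ F : Finset (Fin q.1 → ℕ),
      (∀ u ∈ F, Function.Injective u ∧ Function.Surjective q.2 ∧
        Sol A (fun b => (univ.filter (fun i => q.2 i = b)).card) h u) → F.card ≤ g := by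
    rintro ⟨j, π⟩
    dsimp only
    by_cases hπ : Function.Surjective π
    · obtain ⟨g, hg⟩ := hb j (by have := j.2; omega) (fun b => (univ.filter (fun i => π i = b)).card) (fun b => by
        obtain ⟨i, hi⟩ := hπ b
        exact Finset.card_pos.2 ⟨i, mem_filter.2 ⟨mem_univ _, hi⟩⟩)
      exact ⟨g, fun h F hF => hg h F fun u hu => ⟨(hF u hu).1, (hF u hu).2.2⟩⟩
    · refine ⟨0, fun h F hF => ?_⟩
      by_contra hcon
      obtain ⟨u, hu⟩ := Finset.card_pos.1 (by omega : 0 < F.card)
      exact hπ (hF u hu).2.1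
  choose g hg using h1
  refine ⟨∑ q, g q, fun h F hF => ?_⟩
  have h2 : F ⊆ (univ : Finset (Σ j : Fin (s + 1), (Fin s → Fin j))).biUnion (fun q => F.filter (fun x =>
      ∃ y : Fin q.1 → ℕ, Function.Injective y ∧ Function.Surjective q.2 ∧ x = fun i => y (q.2 i))) := by
    intro x hx
    obtain ⟨n, hn⟩ : ∃ n, n = (univ.image x).card := ⟨_, rfl⟩
    have hns : n ≤ s := by
      rw [hn]
      refine Finset.card_image_le.trans ?_
      rw [Finset.card_univ, Fintype.card_fin]
    obtain ⟨e, he⟩ : ∃ e : (univ.image x : Finset ℕ) ≃ Fin n, True := ⟨Finset.equivFinOfCardEq hn.symm, trivial⟩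
    rw [mem_biUnion]
    refine ⟨⟨⟨n, by omega⟩, fun i => e ⟨x i, mem_image_of_mem x (mem_univ i)⟩⟩, mem_univ _, mem_filter.2
      ⟨hx, fun b => (e.symm b : ℕ), ?_, ?_, ?_⟩⟩
    · intro b b' hbb
      exact e.symm.injective (Subtype.ext hbb)
    · intro b
      obtain ⟨i, _, hi⟩ := mem_image.1 (e.symm b).2
      refine ⟨i, ?_⟩
      dsimp only
      rw [← Equiv.eq_symm_apply]
      exact Subtype.ext hi
    · funext i
      dsimp only
      rw [Equiv.symm_apply_apply]
  refine (Finset.card_le_card h2).trans (Finset.card_biUnion_le.trans ?_)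
  apply Finset.sum_le_sum
  rintro ⟨j, π⟩ _
  dsimp only
  by_cases hπ : Function.Surjective π
  · obtain ⟨σ, hσ⟩ := hπ.hasRightInverse
    have h3 : ((F.filter (fun x => ∃ y : Fin j → ℕ, Function.Injective y ∧ Function.Surjective π ∧
        x = fun i => y (π i))).image (fun x => fun b => x (σ b))).card ≤ g ⟨j, π⟩ := by
      apply hg ⟨j, π⟩ h
      intro w hw
      rw [mem_image] at hw
      obtain ⟨x, hx, rfl⟩ := hw
      rw [mem_filter] at hx
      obtain ⟨hx1, y, hy1, hy2, hy3⟩ := hx
      have hxy : (fun b => x (σ b)) = y := by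
        funext b
        rw [hy3]
        dsimp only
        rw [hσ b]
      rw [hxy]
      obtain ⟨hs1, hs2⟩ := hF x hx1
      refine ⟨hy1, hπ, fun b => ?_, fun i => ?_⟩
      · have h4 := hs1 (σ b)
        rw [← hxy]
        exact h4
      · rw [← hs2 i, hy3]
        dsimp only
        simp only [one_mul]
        rw [← Finset.sum_fiberwise (s := univ) (g := π) (f := fun i' => y (π i') ^ (i.val + 1))]
        apply Finset.sum_congr rfl
        intro b _
        rw [Finset.sum_congr rfl (g := fun _ => y b ^ (i.val + 1)) (fun i' hi' => by rw [(mem_filter.1 hi').2]),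
          Finset.sum_const, smul_eq_mul]
    rw [Finset.card_image_of_injOn] at h3
    · exact h3
    · intro x hx x' hx' hxx
      rw [mem_coe, mem_filter] at hx hx'
      obtain ⟨_, y, _, _, hy3⟩ := hx
      obtain ⟨_, y', _, _, hy3'⟩ := hx'
      have h4 : y = y' := by
        funext b
        have h5 := congrFun hxx b
        dsimp only at h5
        rw [hy3, hy3'] at h5
        dsimp only at h5
        rwa [hσ b] at h5
      rw [hy3, hy3', h4]
  · have h3 : F.filter (fun x => ∃ y : Fin j → ℕ, Function.Injective y ∧ Function.Surjective π ∧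
        x = fun i => y (π i)) = ∅ := by
      apply Finset.filter_eq_empty_iff.2
      rintro x _ ⟨_, _, h4, _⟩
      exact hπ h4
    rw [h3, Finset.card_empty]
    exact Nat.zero_le _

end Pool.Agent.L5helper4.VS
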