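import Mathlib

set_option autoImplicit false

/-!
# The even moments of an exponential sum along the moment curve
-/

open Finset MeasureTheory

namespace Pool.Agent.L5helper4.VS

/-- the exponential with frequency `m` -/
noncomputable def ex {k : ℕ} (m : Fin k → ℤ) (α : Fin k → ℝ) : ℂ :=
  Complex.exp (2 * Real.pi * Complex.I * ((∑ j, α j * (m j : ℝ) : ℝ) : ℂ))

lemma ex_add {k : ℕ} (m m' : Fin k → ℤ) (α : Fin k → ℝ) : ex (m + m') α = ex m α * ex m' α := by
  unfold ex
  rw [← Complex.exp_add]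
  congr 1
  rw [← mul_add, ← Complex.ofReal_add, ← Finset.sum_add_distrib]
  congr 2
  apply Finset.sum_congr rfl
  intro j _
  rw [Pi.add_apply]
  push_cast
  ring

lemma ex_zero {k : ℕ} (α : Fin k → ℝ) : ex (0 : Fin k → ℤ) α = 1 := by
  unfold ex
  simp

lemma ex_sum {k : ℕ} {ι : Type*} (s : Finset ι) (m : ι → Fin k → ℤ) (α : Fin k → ℝ) :
    ex (∑ i ∈ s, m i) α = ∏ i ∈ s, ex (m i) α := by
  classical
  induction s using Finset.induction_on with
  | empty => rw [Finset.sum_empty, Finset.prod_empty, ex_zero]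
  | insert i s hi ih => rw [Finset.sum_insert hi, Finset.prod_insert hi, ex_add, ih]

lemma ex_neg {k : ℕ} (m : Fin k → ℤ) (α : Fin k → ℝ) : ex (-m) α = (starRingEnd ℂ) (ex m α) := by
  unfold ex
  rw [← Complex.exp_conj]
  congr 1
  simp only [map_mul, Complex.conj_ofReal, Complex.conj_I, map_ofNat, Pi.neg_apply, Int.cast_neg, mul_neg,
    Finset.sum_neg_distrib, Complex.ofReal_neg, neg_mul]

lemma ex_cont {k : ℕ} (m : Fin k → ℤ) : Continuous (ex m) := by
  unfold ex
  fun_prop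

lemma int_one (m : ℤ) : ∫ t in Set.Icc (0 : ℝ) 1, Complex.exp (2 * Real.pi * Complex.I * (m : ℂ) * (t : ℂ)) =
    if m = 0 then 1 else 0 := by
  rw [integral_Icc_eq_integral_Ioc, ← intervalIntegral.integral_of_le zero_le_one]
  split_ifs with h
  · subst h
    simp
  · have hc : (2 * (Real.pi : ℂ) * Complex.I * m) ≠ 0 := by
      have hpi : (Real.pi : ℂ) ≠ 0 := by exact_mod_cast Real.pi_ne_zero
      have : (m : ℂ) ≠ 0 := by exact_mod_cast h
      simp [hpi, this, Complex.I_ne_zero]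
    rw [integral_exp_mul_complex hc]
    have : Complex.exp (2 * (Real.pi : ℂ) * Complex.I * m * ((1:ℝ) : ℂ)) = 1 := by
      rw [Complex.exp_eq_one_iff]
      exact ⟨m, by push_cast; ring⟩
    rw [this]
    simp

lemma int_box {k : ℕ} (m : Fin k → ℤ) : ∫ α in Set.Icc (0 : Fin k → ℝ) 1, ex m α = if m = 0 then 1 else 0 := by
  have h0 : (volume : Measure (Fin k → ℝ)).restrict (Set.Icc (0 : Fin k → ℝ) 1) =
      Measure.pi (fun _ : Fin k => (volume : Measure ℝ).restrict (Set.Icc 0 1)) := by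
    rw [← Set.pi_univ_Icc, volume_pi, Measure.restrict_pi_pi]
    rfl
  have h1 : ∀ α : Fin k → ℝ, ex m α = ∏ j, Complex.exp (2 * Real.pi * Complex.I * ((m j : ℤ) : ℂ) * ((α j : ℝ) : ℂ)) := by
    intro α
    unfold ex
    rw [← Complex.exp_sum]
    congr 1
    push_cast
    rw [Finset.mul_sum]
    apply Finset.sum_congr rfl
    intro j _
    ring
  rw [h0]
  simp only [h1]
  rw [integral_fintype_prod_eq_prod (μ := fun _ : Fin k => (volume : Measure ℝ).restrict (Set.Icc 0 1))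
    (fun (j : Fin k) (x : ℝ) => Complex.exp (2 * (Real.pi : ℂ) * Complex.I * ((m j : ℤ) : ℂ) * ((x : ℝ) : ℂ)))]
  rw [Finset.prod_congr rfl (fun j _ => int_one (m j))]
  split_ifs with h
  · subst h
    simp
  · obtain ⟨i, hi⟩ := Function.ne_iff.mp h
    apply Finset.prod_eq_zero (Finset.mem_univ i)
    rw [if_neg]
    simpa using hi

/-- the point of the moment curve -/
def vk (k n : ℕ) : Fin k → ℤ := fun j => (n : ℤ) ^ (j.val + 1)

/-- the exponential sum -/
noncomputable def fs (k : ℕ) (S : Finset ℕ) (c : ℕ → ℂ) (α : Fin k → ℝ) : ℂ := ∑ n ∈ S, c n * ex (vk k n) α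

/-- the product of the coefficients -/
noncomputable def Cx {s : ℕ} (c : ℕ → ℂ) (x : Fin s → ℕ) : ℂ := ∏ i, c (x i)

lemma fs_pow (k s : ℕ) (S : Finset ℕ) (c : ℕ → ℂ) (α : Fin k → ℝ) :
    fs k S c α ^ s = ∑ x ∈ Fintype.piFinset (fun _ : Fin s => S), Cx c x * ex (∑ i, vk k (x i)) α := by
  unfold fs
  have h := Finset.prod_univ_sum (fun _ : Fin s => S) (fun _ n => c n * ex (vk k n) α)
  rw [Finset.prod_const, Finset.card_univ, Fintype.card_fin] at h
  rw [h]
  apply Finset.sum_congr rfl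
  intro x _
  rw [Finset.prod_mul_distrib, ex_sum]
  rfl

lemma fs_sq (k s : ℕ) (S : Finset ℕ) (c : ℕ → ℂ) (α : Fin k → ℝ) :
    ((‖fs k S c α‖ ^ (2 * s) : ℝ) : ℂ) = ∑ x ∈ Fintype.piFinset (fun _ : Fin s => S),
      ∑ y ∈ Fintype.piFinset (fun _ : Fin s => S),
      (Cx c x * (starRingEnd ℂ) (Cx c y)) * ex (∑ i, vk k (x i) + -∑ i, vk k (y i)) α := by
  have h1 : ((‖fs k S c α‖ ^ (2 * s) : ℝ) : ℂ) = fs k S c α ^ s * (starRingEnd ℂ) (fs k S c α ^ s) := by
    rw [Complex.mul_conj', norm_pow]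
    push_cast
    rw [← pow_mul, mul_comm s 2]
  rw [h1, fs_pow, map_sum, Finset.sum_mul_sum]
  apply Finset.sum_congr rfl
  intro x _
  apply Finset.sum_congr rfl
  intro y _
  rw [ex_add, ex_neg, map_mul]
  ring

open Classical in
/-- the `2 s`-th moment -/
theorem moment (k s : ℕ) (S : Finset ℕ) (c : ℕ → ℂ) :
    ((∫ α in Set.Icc (0 : Fin k → ℝ) 1, ‖fs k S c α‖ ^ (2 * s) : ℝ) : ℂ) =
      ∑ x ∈ Fintype.piFinset (fun _ : Fin s => S), ∑ y ∈ Fintype.piFinset (fun _ : Fin s => S),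
        if ∑ i, vk k (x i) = ∑ i, vk k (y i) then Cx c x * (starRingEnd ℂ) (Cx c y) else 0 := by
  rw [← integral_complex_ofReal]
  simp only [fs_sq]
  have hint : ∀ (b : ℂ) (m : Fin k → ℤ), Integrable (fun α => b * ex m α)
      ((volume : Measure (Fin k → ℝ)).restrict (Set.Icc (0 : Fin k → ℝ) 1)) := by
    intro b m
    exact (continuous_const.mul (ex_cont m)).continuousOn.integrableOn_compact isCompact_Icc
  rw [integral_finset_sum _ (fun x _ => integrable_finset_sum _ (fun y _ => hint _ _))]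
  apply Finset.sum_congr rfl
  intro x _
  rw [integral_finset_sum _ (fun y _ => hint _ _)]
  apply Finset.sum_congr rfl
  intro y _
  rw [integral_const_mul, int_box]
  by_cases h : ∑ i, vk k (x i) = ∑ i, vk k (y i)
  · rw [if_pos h, if_pos (by rw [h]; exact add_neg_cancel _), mul_one]
  · rw [if_neg h, if_neg, mul_zero]
    intro h2
    exact h (by rw [← sub_eq_zero, sub_eq_add_neg]; exact h2)

/-- the restriction estimate from the number of representations -/
theorem restr (k s g : ℕ) (S : Finset ℕ) (hg : ∀ h : Fin k → ℕ, ∀ F : Finset (Fin s → ℕ),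
    (∀ u ∈ F, (∀ i, u i ∈ S) ∧ ∀ j : Fin k, ∑ i, u i ^ (j.val + 1) = h j) → F.card ≤ g) (c : ℕ → ℂ) :
    ∫ α in Set.Icc (0 : Fin k → ℝ) 1, ‖fs k S c α‖ ^ (2 * s) ≤ g * (∑ n ∈ S, ‖c n‖ ^ 2) ^ s := by
  classical
  obtain ⟨X, hX⟩ : ∃ X : Finset (Fin s → ℕ), X = Fintype.piFinset (fun _ : Fin s => S) := ⟨_, rfl⟩
  have h1 := moment k s S c
  have h0 : 0 ≤ ∫ α in Set.Icc (0 : Fin k → ℝ) 1, ‖fs k S c α‖ ^ (2 * s) :=
    integral_nonneg fun α => by positivity
  have h2 : ∫ α in Set.Icc (0 : Fin k → ℝ) 1, ‖fs k S c α‖ ^ (2 * s) =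
      ‖((∫ α in Set.Icc (0 : Fin k → ℝ) 1, ‖fs k S c α‖ ^ (2 * s) : ℝ) : ℂ)‖ := by
    rw [Complex.norm_real, Real.norm_of_nonneg h0]
  rw [h2, h1, ← hX]
  have hcnt : ∀ x : Fin s → ℕ, ((X.filter (fun y => ∑ i, vk k (x i) = ∑ i, vk k (y i))).card : ℝ) ≤ g := by
    intro x
    have h3 := hg (fun j => ∑ i, x i ^ (j.val + 1)) (X.filter (fun y => ∑ i, vk k (x i) = ∑ i, vk k (y i))) (by
      intro u hu
      rw [mem_filter, hX, Fintype.mem_piFinset] at hu
      refine ⟨hu.1, fun j => ?_⟩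
      have h4 := congrFun hu.2 j
      rw [Finset.sum_apply, Finset.sum_apply] at h4
      unfold vk at h4
      exact_mod_cast h4.symm)
    exact_mod_cast h3
  calc ‖∑ x ∈ X, ∑ y ∈ X, (if ∑ i, vk k (x i) = ∑ i, vk k (y i) then Cx c x * (starRingEnd ℂ) (Cx c y) else 0)‖
      ≤ ∑ x ∈ X, ∑ y ∈ X, (if ∑ i, vk k (x i) = ∑ i, vk k (y i) then (‖Cx c x‖ ^ 2 + ‖Cx c y‖ ^ 2) / 2 else 0) := by
        refine (norm_sum_le _ _).trans (Finset.sum_le_sum fun x _ => (norm_sum_le _ _).trans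
          (Finset.sum_le_sum fun y _ => ?_))
        split_ifs
        · rw [norm_mul, RCLike.norm_conj]
          nlinarith [sq_nonneg (‖Cx c x‖ - ‖Cx c y‖)]
        · rw [norm_zero]
    _ = ∑ x ∈ X, ∑ y ∈ X, (if ∑ i, vk k (x i) = ∑ i, vk k (y i) then ‖Cx c x‖ ^ 2 / 2 else 0) +
        ∑ x ∈ X, ∑ y ∈ X, (if ∑ i, vk k (x i) = ∑ i, vk k (y i) then ‖Cx c y‖ ^ 2 / 2 else 0) := by
        rw [← Finset.sum_add_distrib]
        apply Finset.sum_congr rfl
        intro x _
        rw [← Finset.sum_add_distrib]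
        apply Finset.sum_congr rfl
        intro y _
        split_ifs
        · ring
        · ring
    _ = ∑ x ∈ X, ∑ y ∈ X, (if ∑ i, vk k (x i) = ∑ i, vk k (y i) then ‖Cx c x‖ ^ 2 / 2 else 0) +
        ∑ x ∈ X, ∑ y ∈ X, (if ∑ i, vk k (x i) = ∑ i, vk k (y i) then ‖Cx c x‖ ^ 2 / 2 else 0) := by
        congr 1
        rw [Finset.sum_comm]
        apply Finset.sum_congr rfl
        intro x _
        apply Finset.sum_congr rfl
        intro y _
        by_cases h : ∑ i, vk k (x i) = ∑ i, vk k (y i)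
        · rw [if_pos h, if_pos h.symm]
        · rw [if_neg h, if_neg (fun h' => h h'.symm)]
    _ = ∑ x ∈ X, ‖Cx c x‖ ^ 2 * ((X.filter (fun y => ∑ i, vk k (x i) = ∑ i, vk k (y i))).card : ℝ) := by
        rw [← Finset.sum_add_distrib]
        apply Finset.sum_congr rfl
        intro x _
        rw [← Finset.sum_filter, Finset.sum_const, nsmul_eq_mul]
        ring
    _ ≤ ∑ x ∈ X, ‖Cx c x‖ ^ 2 * g := by
        apply Finset.sum_le_sum
        intro x _
        exact mul_le_mul_of_nonneg_left (hcnt x) (by positivity)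
    _ = g * (∑ n ∈ S, ‖c n‖ ^ 2) ^ s := by
        rw [← Finset.sum_mul, mul_comm, hX]
        congr 1
        have h := Finset.prod_univ_sum (fun _ : Fin s => S) (fun _ n => ‖c n‖ ^ 2)
        rw [Finset.prod_const, Finset.card_univ, Fintype.card_fin] at h
        rw [h]
        apply Finset.sum_congr rfl
        intro x _
        unfold Cx
        rw [norm_prod, Finset.prod_pow]

/-- coefficients equal to one: the moment is the number of solutions -/
theorem moment_one (k s : ℕ) (S : Finset ℕ) :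
    ∫ α in Set.Icc (0 : Fin k → ℝ) 1, ‖fs k S (fun _ => 1) α‖ ^ (2 * s) =
      ((((Fintype.piFinset fun _ : Fin s => S) ×ˢ (Fintype.piFinset fun _ : Fin s => S)).filter
    (fun p => ∀ j : Fin k, ∑ i, p.1 i ^ (j.val + 1) = ∑ i, p.2 i ^ (j.val + 1))).card : ℝ) := by
  classical
  have h1 := moment k s S (fun _ => 1)
  apply Complex.ofReal_injective
  rw [h1, Finset.card_filter, Finset.sum_product]
  push_cast
  apply Finset.sum_congr rfl
  intro x _
  apply Finset.sum_congr rfl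
  intro y _
  have h2 : (∑ i, vk k (x i) = ∑ i, vk k (y i)) ↔ ∀ j : Fin k, ∑ i, x i ^ (j.val + 1) = ∑ i, y i ^ (j.val + 1) := by
    rw [funext_iff]
    apply forall_congr'
    intro j
    rw [Finset.sum_apply, Finset.sum_apply]
    unfold vk
    constructor
    · intro h
      exact_mod_cast h
    · intro h
      exact_mod_cast h
  simp only [h2, Cx, Finset.prod_const_one, map_one, mul_one]
  split_ifs <;> simp

end Pool.Agent.L5helper4.VS
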