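import Mathlib
import Pool.Agent.R366.NF.Div

set_option autoImplicit false

/-!
# Integer points on ellipses
-/

open Finset NumberField

namespace Pool.Agent.L5helper4.VS

/-- the number of representations by `u ^ 2 + Δ v ^ 2` -/
theorem quad_aux {E : Type} [Field E] [NumberField E] (Δ : ℕ) (hΔ : 1 ≤ Δ) (θ : E) (hθ : θ ^ 2 = -(Δ : E))
    (δ : ℝ) (hδ : 0 < δ) : ∃ C : ℝ, 1 ≤ C ∧ ∀ X : ℝ, 1 ≤ X → ∀ n : ℤ,
    |(n : ℝ)| ≤ X → ∀ T : Finset (ℤ × ℤ), (∀ p ∈ T, p.1 ^ 2 + Δ * p.2 ^ 2 = n) → (T.card : ℝ) ≤ C * X ^ δ := by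
  classical
  have hθi : IsIntegral ℤ θ := by
    refine ⟨Polynomial.X ^ 2 + Polynomial.C (Δ : ℤ), ?_, ?_⟩
    · exact Polynomial.monic_X_pow_add_C _ (by norm_num)
    · simp [hθ]
  obtain ⟨Θ, hΘ⟩ : ∃ Θ : 𝓞 E, algebraMap (𝓞 E) E Θ = θ := ⟨⟨θ, hθi⟩, rfl⟩
  have hΘ2 : Θ ^ 2 = -(Δ : 𝓞 E) := by
    apply RingOfIntegers.coe_injective
    rw [map_pow, hΘ, hθ, map_neg, map_natCast]
  obtain ⟨C, hC, hfd⟩ := Pool.Agent.R366.NF.few_divisors (E := E) hδ
  refine ⟨1 + C * 2 ^ δ, by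
    have : 0 < C * 2 ^ δ := by positivity
    linarith, fun X hX n hn T hT => ?_⟩
  have hXδ : 1 ≤ X ^ δ := Real.one_le_rpow hX hδ.le
  have hΔr : (1 : ℝ) ≤ Δ := by exact_mod_cast hΔ
  rcases eq_or_ne n 0 with h0 | h0
  · have h1 : T ⊆ {((0 : ℤ), (0 : ℤ))} := by
      rintro ⟨u, v⟩ hp
      have h2 := hT _ hp
      rw [h0] at h2
      dsimp only at h2
      have hΔz : (1 : ℤ) ≤ Δ := by exact_mod_cast hΔ
      have h3 : v ^ 2 ≤ Δ * v ^ 2 := by nlinarith [sq_nonneg v]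
      have h4 : u = 0 := by
        have : u ^ 2 ≤ 0 := by nlinarith [sq_nonneg v]
        exact pow_eq_zero_iff (two_ne_zero) |>.1 (le_antisymm this (sq_nonneg u))
      have h5 : v = 0 := by
        have : v ^ 2 ≤ 0 := by nlinarith [sq_nonneg u]
        exact pow_eq_zero_iff (two_ne_zero) |>.1 (le_antisymm this (sq_nonneg v))
      rw [h4, h5, mem_singleton]
    have h2 := Finset.card_le_card h1
    rw [Finset.card_singleton] at h2
    have h3 : (T.card : ℝ) ≤ 1 := by exact_mod_cast h2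
    have h4 : 0 ≤ C * 2 ^ δ * X ^ δ := by positivity
    nlinarith
  · have hinj : Set.InjOn (fun p : ℤ × ℤ => (p.1 : 𝓞 E) + (p.2 : 𝓞 E) * Θ) (T : Set (ℤ × ℤ)) := by
      rintro ⟨u, v⟩ _ ⟨u', v'⟩ _ h
      dsimp only at h
      have h1 : ((u - u' : ℤ) : 𝓞 E) = ((v' - v : ℤ) : 𝓞 E) * Θ := by
        push_cast
        linear_combination h
      have h2 : (((u - u') ^ 2 + Δ * (v' - v) ^ 2 : ℤ) : 𝓞 E) = ((0 : ℤ) : 𝓞 E) := by
        have h3 : ((u - u' : ℤ) : 𝓞 E) ^ 2 = ((v' - v : ℤ) : 𝓞 E) ^ 2 * Θ ^ 2 := by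
          rw [h1]
          ring
        rw [hΘ2] at h3
        push_cast at h3 ⊢
        linear_combination h3
      have h3 : (u - u') ^ 2 + Δ * (v' - v) ^ 2 = 0 := Int.cast_injective h2
      have hΔz : (1 : ℤ) ≤ Δ := by exact_mod_cast hΔ
      have h5 : (v' - v) ^ 2 ≤ Δ * (v' - v) ^ 2 := by nlinarith [sq_nonneg (v' - v)]
      have h6 : u - u' = 0 := by
        have : (u - u') ^ 2 ≤ 0 := by nlinarith [sq_nonneg (v' - v)]
        exact pow_eq_zero_iff (two_ne_zero) |>.1 (le_antisymm this (sq_nonneg _))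
      have h7 : v' - v = 0 := by
        have : (v' - v) ^ 2 ≤ 0 := by nlinarith [sq_nonneg (u - u')]
        exact pow_eq_zero_iff (two_ne_zero) |>.1 (le_antisymm this (sq_nonneg _))
      rw [Prod.mk.injEq]
      omega
    have h1 := hfd (2 * X) (by linarith) n h0 (by linarith [abs_nonneg (n : ℝ)])
      (T.image (fun p : ℤ × ℤ => (p.1 : 𝓞 E) + (p.2 : 𝓞 E) * Θ)) (by
      intro β hβ
      rw [mem_image] at hβ
      obtain ⟨⟨u, v⟩, hp, rfl⟩ := hβ
      have h2 := hT _ hp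
      dsimp only at h2 ⊢
      constructor
      · refine ⟨(u : 𝓞 E) - (v : 𝓞 E) * Θ, ?_⟩
        rw [← h2]
        push_cast
        linear_combination (v : 𝓞 E) ^ 2 * hΘ2
      · intro w
        rw [← InfinitePlace.norm_embedding_eq]
        change ‖w.embedding (algebraMap (𝓞 E) E ((u : 𝓞 E) + (v : 𝓞 E) * Θ))‖ ≤ 2 * X
        rw [map_add, map_mul, map_intCast, map_intCast, hΘ, map_add, map_mul, map_intCast, map_intCast]
        obtain ⟨t, ht⟩ : ∃ t, t = ‖w.embedding θ‖ := ⟨_, rfl⟩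
        have ht2 : t ^ 2 = Δ := by
          rw [ht, ← norm_pow, ← map_pow, hθ, map_neg, map_natCast, norm_neg, Complex.norm_natCast]
        have ht0 : 0 ≤ t := by rw [ht]; exact norm_nonneg _
        have ht1 : t ≤ Δ := by nlinarith
        have hn2 : ((u : ℝ)) ^ 2 + Δ * (v : ℝ) ^ 2 = n := by exact_mod_cast h2
        have hnX : (n : ℝ) ≤ X := (le_abs_self _).trans hn
        have hu1 : |(u : ℝ)| ≤ (u : ℝ) ^ 2 := by
          rcases eq_or_ne u 0 with h | h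
          · rw [h]; simp
          · have h3 : (1 : ℝ) ≤ |(u : ℝ)| := by exact_mod_cast Int.one_le_abs h
            rw [← sq_abs]
            nlinarith
        have hv1 : |(v : ℝ)| ≤ (v : ℝ) ^ 2 := by
          rcases eq_or_ne v 0 with h | h
          · rw [h]; simp
          · have h3 : (1 : ℝ) ≤ |(v : ℝ)| := by exact_mod_cast Int.one_le_abs h
            rw [← sq_abs]
            nlinarith
        calc ‖(u : ℂ) + (v : ℂ) * w.embedding θ‖ ≤ ‖(u : ℂ)‖ + ‖(v : ℂ) * w.embedding θ‖ := norm_add_le _ _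
          _ = |(u : ℝ)| + |(v : ℝ)| * t := by
              rw [norm_mul, Complex.norm_intCast, Complex.norm_intCast, ht]
          _ ≤ (u : ℝ) ^ 2 + (v : ℝ) ^ 2 * Δ := by
              apply add_le_add hu1
              exact mul_le_mul hv1 ht1 ht0 (by positivity)
          _ ≤ 2 * X := by
              have : (u : ℝ) ^ 2 + (v : ℝ) ^ 2 * Δ = n := by linarith
              linarith)
    rw [Finset.card_image_of_injOn hinj] at h1
    refine h1.trans ?_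
    rw [Real.mul_rpow (by norm_num) (by linarith), ← mul_assoc]
    apply mul_le_mul_of_nonneg_right _ (by positivity)
    linarith

theorem quad_count (Δ : ℕ) (hΔ : 1 ≤ Δ) (δ : ℝ) (hδ : 0 < δ) : ∃ C : ℝ, 1 ≤ C ∧ ∀ X : ℝ, 1 ≤ X → ∀ n : ℤ,
    |(n : ℝ)| ≤ X → ∀ T : Finset (ℤ × ℤ), (∀ p ∈ T, p.1 ^ 2 + Δ * p.2 ^ 2 = n) → (T.card : ℝ) ≤ C * X ^ δ := by
  obtain ⟨x, hx⟩ : ∃ x : ℂ, x ^ 2 = -(Δ : ℂ) := ⟨Complex.I * (Real.sqrt Δ : ℝ), by
    rw [mul_pow, Complex.I_sq, ← Complex.ofReal_pow, Real.sq_sqrt (by positivity)]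
    push_cast
    ring⟩
  have hxi : IsIntegral ℚ x := by
    refine ⟨Polynomial.X ^ 2 + Polynomial.C (Δ : ℚ), ?_, ?_⟩
    · exact Polynomial.monic_X_pow_add_C _ (by norm_num)
    · simp [hx]
  have h1 := IntermediateField.adjoin.finiteDimensional hxi
  have h2 : NumberField (IntermediateField.adjoin ℚ {x}) := ⟨⟩
  exact quad_aux Δ hΔ (⟨x, IntermediateField.mem_adjoin_simple_self ℚ x⟩ : IntermediateField.adjoin ℚ {x}) (by
      apply Subtype.ext
      push_cast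
      exact hx) δ hδ

/-- the number of integer points on an ellipse in space -/
theorem conic (c : Fin 3 → ℕ) (hc : ∀ i, 1 ≤ c i) (δ : ℝ) (hδ : 0 < δ) : ∃ C : ℝ, 1 ≤ C ∧ ∀ M : ℕ, 1 ≤ M →
    ∀ h1 h2 : ℤ, ∀ T : Finset (Fin 3 → ℕ), (∀ u ∈ T, (∀ i, u i ≤ M) ∧ ∑ i, (c i : ℤ) * (u i : ℤ) = h1 ∧
      ∑ i, (c i : ℤ) * (u i : ℤ) ^ 2 = h2) → (T.card : ℝ) ≤ C * (M : ℝ) ^ δ := by
  classical
  obtain ⟨p, hp⟩ : ∃ p : ℤ, p = c 0 := ⟨_, rfl⟩
  obtain ⟨q, hq⟩ : ∃ q : ℤ, q = c 1 := ⟨_, rfl⟩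
  obtain ⟨r, hr⟩ : ∃ r : ℤ, r = c 2 := ⟨_, rfl⟩
  have hp1 : 1 ≤ p := by rw [hp]; exact_mod_cast hc 0
  have hq1 : 1 ≤ q := by rw [hq]; exact_mod_cast hc 1
  have hr1 : 1 ≤ r := by rw [hr]; exact_mod_cast hc 2
  obtain ⟨S, hS⟩ : ∃ S : ℤ, S = p + q + r := ⟨_, rfl⟩
  have hS3 : 3 ≤ S := by omega
  obtain ⟨Δ, hΔ⟩ : ∃ Δ : ℕ, (Δ : ℤ) = p * q * r * S := ⟨(p * q * r * S).toNat, Int.toNat_of_nonneg (by positivity)⟩
  have hΔ1 : (1 : ℤ) ≤ Δ := by
    rw [hΔ]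
    have : 0 < p * q * r * S := by positivity
    omega
  obtain ⟨C, hC, hqc⟩ := quad_count Δ (by exact_mod_cast hΔ1) (δ / 2) (by positivity)
  obtain ⟨K, hK⟩ : ∃ K : ℝ, K = 2 * (S : ℝ) ^ 6 := ⟨_, rfl⟩
  have hSr : (3 : ℝ) ≤ S := by exact_mod_cast hS3
  have hK1 : 1 ≤ K := by
    rw [hK]
    have : (1 : ℝ) ≤ (S : ℝ) ^ 6 := one_le_pow₀ (by linarith)
    linarith
  refine ⟨C * K ^ (δ / 2), by
    have : 1 ≤ K ^ (δ / 2) := Real.one_le_rpow hK1 (by positivity)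
    nlinarith, fun M hM h1 h2 T hT => ?_⟩
  have hMr : (1 : ℝ) ≤ M := by exact_mod_cast hM
  rcases T.eq_empty_or_nonempty with h0 | ⟨u0, hu0⟩
  · rw [h0, Finset.card_empty, Nat.cast_zero]
    positivity
  obtain ⟨n, hn⟩ : ∃ n : ℤ, n = p * (p + r) * r * (S ^ 2 * h2 - S * h1 ^ 2) := ⟨_, rfl⟩
  obtain ⟨φ, hφ⟩ : ∃ φ : (Fin 3 → ℕ) → ℤ × ℤ, φ = fun u =>
    (p * ((p + r) * (S * u 0 - h1) + q * (S * u 1 - h1)), S * u 1 - h1) := ⟨_, rfl⟩
  have heq : ∀ u ∈ T, p * u 0 + q * u 1 + r * u 2 = h1 ∧ p * (u 0 : ℤ) ^ 2 + q * (u 1 : ℤ) ^ 2 + r * (u 2 : ℤ) ^ 2 = h2 := by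
    intro u hu
    obtain ⟨_, h3, h4⟩ := hT u hu
    rw [Fin.sum_univ_three] at h3 h4
    rw [hp, hq, hr]
    exact ⟨h3, h4⟩
  have hφn : ∀ u ∈ T, (φ u).1 ^ 2 + Δ * (φ u).2 ^ 2 = n := by
    intro u hu
    obtain ⟨h3, h4⟩ := heq u hu
    rw [hφ, hΔ, hn, ← h3, ← h4, hS]
    ring
  have hinj : Set.InjOn φ (T : Set (Fin 3 → ℕ)) := by
    intro u hu u' hu' huu
    rw [hφ] at huu
    dsimp only at huu
    rw [Prod.mk.injEq] at huu
    obtain ⟨h5, h6⟩ := huu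
    have hS0 : S ≠ 0 := by omega
    have e1 : (u 1 : ℤ) = u' 1 := by
      have : S * (u 1 : ℤ) = S * u' 1 := by linarith
      exact mul_left_cancel₀ hS0 this
    have e0 : (u 0 : ℤ) = u' 0 := by
      rw [e1] at h5
      have h7 := mul_left_cancel₀ (by omega : p ≠ 0) h5
      have h8 : (p + r) * (S * (u 0 : ℤ) - h1) = (p + r) * (S * (u' 0 : ℤ) - h1) := by linarith
      have h9 := mul_left_cancel₀ (by omega : p + r ≠ 0) h8
      have : S * (u 0 : ℤ) = S * u' 0 := by linarith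
      exact mul_left_cancel₀ hS0 this
    have e2 : (u 2 : ℤ) = u' 2 := by
      have h7 := (heq u hu).1
      have h8 := (heq u' hu').1
      rw [e0, e1] at h7
      have : r * (u 2 : ℤ) = r * u' 2 := by linarith
      exact mul_left_cancel₀ (by omega : r ≠ 0) this
    funext i
    fin_cases i
    · exact_mod_cast e0
    · exact_mod_cast e1
    · exact_mod_cast e2
  have hnb : |(n : ℝ)| ≤ K * (M : ℝ) ^ 2 := by
    rw [← hφn u0 hu0]
    have hMz : (1 : ℤ) ≤ M := by exact_mod_cast hM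
    obtain ⟨hb, _, _⟩ := hT u0 hu0
    obtain ⟨h3, _⟩ := heq u0 hu0
    have b0 : (u0 0 : ℤ) ≤ M := by exact_mod_cast hb 0
    have b1 : (u0 1 : ℤ) ≤ M := by exact_mod_cast hb 1
    have b2 : (u0 2 : ℤ) ≤ M := by exact_mod_cast hb 2
    have p0 : (0 : ℤ) ≤ u0 0 := by positivity
    have p1 : (0 : ℤ) ≤ u0 1 := by positivity
    have p2 : (0 : ℤ) ≤ u0 2 := by positivity
    have h10 : 0 ≤ h1 := by
      rw [← h3]
      positivity
    have h11 : h1 ≤ S * M := by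
      rw [← h3, hS]
      nlinarith
    have hX : ∀ z : ℤ, 0 ≤ z → z ≤ M → |S * z - h1| ≤ S * M := by
      intro z hz0 hz1
      rw [abs_le]
      constructor
      · have : 0 ≤ S * z := by positivity
        linarith
      · have : S * z ≤ S * M := mul_le_mul_of_nonneg_left hz1 (by omega)
        linarith
    have hU : |(φ u0).1| ≤ S ^ 3 * M := by
      rw [hφ]
      dsimp only
      rw [abs_mul, abs_of_nonneg (by omega : 0 ≤ p)]
      calc p * |(p + r) * (S * ↑(u0 0) - h1) + q * (S * ↑(u0 1) - h1)| ≤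
            p * (|(p + r) * (S * ↑(u0 0) - h1)| + |q * (S * ↑(u0 1) - h1)|) :=
            mul_le_mul_of_nonneg_left (abs_add_le _ _) (by omega)
        _ = p * ((p + r) * |S * ↑(u0 0) - h1| + q * |S * ↑(u0 1) - h1|) := by
            rw [abs_mul, abs_mul, abs_of_nonneg (by omega : 0 ≤ p + r), abs_of_nonneg (by omega : 0 ≤ q)]
        _ ≤ p * ((p + r) * (S * M) + q * (S * M)) := by
            apply mul_le_mul_of_nonneg_left _ (by omega)
            apply add_le_add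
            · exact mul_le_mul_of_nonneg_left (hX _ p0 b0) (by omega)
            · exact mul_le_mul_of_nonneg_left (hX _ p1 b1) (by omega)
        _ = p * S * (S * M) := by rw [hS]; ring
        _ ≤ S * S * (S * M) := by
            apply mul_le_mul_of_nonneg_right _ (by positivity)
            apply mul_le_mul_of_nonneg_right (by omega) (by omega)
        _ = S ^ 3 * M := by ring
    have hV : |(φ u0).2| ≤ S * M := by
      rw [hφ]
      exact hX _ p1 b1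
    have hn0 : 0 ≤ (φ u0).1 ^ 2 + Δ * (φ u0).2 ^ 2 := by positivity
    have hn1 : (φ u0).1 ^ 2 + Δ * (φ u0).2 ^ 2 ≤ 2 * S ^ 6 * M ^ 2 := by
      have e1 : (φ u0).1 ^ 2 ≤ (S ^ 3 * M) ^ 2 := by
        rw [← sq_abs]
        exact pow_le_pow_left₀ (abs_nonneg _) hU 2
      have e2 : (φ u0).2 ^ 2 ≤ (S * M) ^ 2 := by
        rw [← sq_abs]
        exact pow_le_pow_left₀ (abs_nonneg _) hV 2
      have e3 : (Δ : ℤ) ≤ S ^ 4 := by
        rw [hΔ]
        calc p * q * r * S ≤ S * S * S * S := by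
              have : p ≤ S := by omega
              have : q ≤ S := by omega
              have : r ≤ S := by omega
              gcongr
          _ = S ^ 4 := by ring
      have e4 : Δ * (φ u0).2 ^ 2 ≤ S ^ 4 * (S * M) ^ 2 :=
        mul_le_mul e3 e2 (sq_nonneg _) (by positivity)
      calc (φ u0).1 ^ 2 + Δ * (φ u0).2 ^ 2 ≤ (S ^ 3 * M) ^ 2 + S ^ 4 * (S * M) ^ 2 := add_le_add e1 e4
        _ = 2 * S ^ 6 * M ^ 2 := by ring
    rw [hK, abs_of_nonneg (by exact_mod_cast hn0)]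
    exact_mod_cast hn1
  have h3 := hqc (K * (M : ℝ) ^ 2) (by
    have : (1 : ℝ) ≤ (M : ℝ) ^ 2 := one_le_pow₀ hMr
    nlinarith) n hnb (T.image φ) (by
    intro x hx
    rw [mem_image] at hx
    obtain ⟨u, hu, rfl⟩ := hx
    exact hφn u hu)
  rw [Finset.card_image_of_injOn hinj] at h3
  refine h3.trans (le_of_eq ?_)
  rw [Real.mul_rpow (by linarith) (by positivity), ← Real.rpow_natCast (M : ℝ) 2, ← Real.rpow_mul (by positivity),
    mul_assoc]
  congr 3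
  push_cast
  ring

end Pool.Agent.L5helper4.VS
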