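import Pool.Agent.L5helper4.VS.S2
import Pool.Agent.L5helper4.VS.S6

set_option autoImplicit false

/-!
# The weighted number of representations at one scale, from a bound for few variables
-/

open Finset

namespace Pool.Agent.L5helper4.VS

open Pool.Agent.L5helper4.VR (poly_le)

/-- few solutions in `t` variables -/
def Ht (k t : ℕ) : Prop := ∀ c : Fin t → ℕ, (∀ b, 1 ≤ c b) → ∀ δ : ℝ, 0 < δ → ∃ C : ℝ, 1 ≤ C ∧ ∀ M : ℕ, 1 ≤ M →
  ∀ h : Fin k → ℤ, ∀ T : Finset (Fin t → ℕ), (∀ u ∈ T, (∀ b, u b ≤ M) ∧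
    ∀ n : Fin k, ∑ b, (c b : ℤ) * (u b : ℤ) ^ (n.val + 1) = h n) → (T.card : ℝ) ≤ C * (M : ℝ) ^ δ

lemma Ht_one (k : ℕ) (hk : 1 ≤ k) : Ht k 1 := by
  intro c hc δ hδ
  refine ⟨1, le_rfl, fun M hM h T hT => ?_⟩
  have hMr : (1 : ℝ) ≤ M := by exact_mod_cast hM
  have h1 : T.card ≤ 1 := by
    refine Finset.card_le_one.2 fun u hu u' hu' => ?_
    have e1 := (hT u hu).2 ⟨0, hk⟩
    have e2 := (hT u' hu').2 ⟨0, hk⟩
    simp only [Fin.sum_univ_one, zero_add, pow_one] at e1 e2
    have h2 : (c 0 : ℤ) * u 0 = c 0 * u' 0 := by rw [e1, e2]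
    have h3 : (c 0 : ℤ) ≠ 0 := by
      have := hc 0
      exact_mod_cast (by omega : c 0 ≠ 0)
    have h4 := mul_left_cancel₀ h3 h2
    funext b
    rw [Subsingleton.elim b 0]
    exact_mod_cast h4
  have h2 : (T.card : ℝ) ≤ 1 := by exact_mod_cast h1
  rw [one_mul]
  exact h2.trans (Real.one_le_rpow hMr hδ.le)

lemma Ht_three (k t : ℕ) (hk : 2 ≤ k) (ht : t ≤ 3) : Ht k t := by
  classical
  intro c hc δ hδ
  obtain ⟨C, hC, hb⟩ := conic (fun i => if h : i.val < t then c ⟨i.val, h⟩ else 1) (fun i => by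
    split_ifs
    · exact hc _
    · exact le_rfl) δ hδ
  refine ⟨C, hC, fun M hM h T hT => ?_⟩
  have h1 := hb M hM (h ⟨0, by omega⟩ + (3 - t : ℕ)) (h ⟨1, by omega⟩ + (3 - t : ℕ))
    (T.image (fun u => fun i : Fin 3 => if h : i.val < t then u ⟨i.val, h⟩ else 1)) (by
    intro w hw
    rw [mem_image] at hw
    obtain ⟨u, hu, rfl⟩ := hw
    obtain ⟨h2, h3⟩ := hT u hu
    refine ⟨fun i => ?_, ?_, ?_⟩
    · dsimp only
      split_ifs
      · exact h2 _
      · exact hM
    · have h4 := h3 ⟨0, by omega⟩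
      rw [← h4]
      interval_cases t <;> simp [Fin.sum_univ_succ] <;> ring
    · have h4 := h3 ⟨1, by omega⟩
      rw [← h4]
      interval_cases t <;> simp [Fin.sum_univ_succ] <;> ring)
  rw [Finset.card_image_of_injective] at h1
  · exact h1
  · intro u u' huu
    funext b
    have h2 := congrFun huu ⟨b.val, by omega⟩
    dsimp only at h2
    rw [dif_pos b.2, dif_pos b.2] at h2
    exact h2

/-- the `t` largest entries -/
lemma top {j t : ℕ} (htj : t ≤ j) (u : Fin j → ℕ) : ∃ τ : Fin t → Fin j, Function.Injective τ ∧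
    ∀ i, ∀ b, b ∉ Set.range τ → u b ≤ u (τ i) := by
  refine ⟨fun i => Tuple.sort u (Fin.rev (Fin.castLE htj i)), ?_, ?_⟩
  · intro i i' h
    exact Fin.castLE_injective _ (Fin.rev_injective ((Tuple.sort u).injective h))
  · intro i b hb
    obtain ⟨b', rfl⟩ := (Tuple.sort u).surjective b
    have h1 : b'.val < j - t := by
      by_contra hcon
      push Not at hcon
      apply hb
      refine ⟨⟨j - 1 - b'.val, by have := b'.2; omega⟩, ?_⟩
      dsimp only
      congr 1
      apply Fin.ext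
      rw [Fin.val_rev, Fin.val_castLE]
      have := b'.2
      dsimp only
      omega
    have hmono := Tuple.monotone_sort u
    apply hmono
    rw [Fin.le_def, Fin.val_rev, Fin.val_castLE]
    have := i.2
    omega

theorem wt_t (k j t : ℕ) (ht : 1 ≤ t) (htj : t ≤ j) (hH : Ht k t) (a : ℝ) (ha : 0 < a) (ha1 : a < 1)
    (hjt : (1 - a) * j < t)
    (C0 : ℝ) (hC0 : 0 ≤ C0) (D : ℕ) (hD : 1 ≤ D) (c : Fin j → ℕ) (hc : ∀ b, 1 ≤ c b) :
    ∃ C γ : ℝ, 1 ≤ C ∧ 0 < γ ∧ ∀ L : ℕ, ∀ p : ℕ → ℝ, (∀ z, 0 ≤ p z) →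
      (∀ z : ℕ, 1 ≤ z → z < 2 ^ L → p z ≤ C0 * (z : ℝ) ^ (-a)) → ∀ h : Fin k → ℕ,
      ∑ u ∈ SC k D c h L, ∏ b, p (u b) ≤ C * (2 : ℝ) ^ (-(L * γ)) := by
  classical
  have hDr : (1 : ℝ) ≤ D := by exact_mod_cast hD
  obtain ⟨E, hE⟩ : ∃ E : ℝ, E = (1 - a) * ((j : ℝ) - t) - a * ((t : ℝ) - 1) := ⟨_, rfl⟩
  obtain ⟨ρ, hρ⟩ : ∃ ρ : ℝ, ρ = a - max 0 E := ⟨_, rfl⟩
  have hρ0 : 0 < ρ := by
    rw [hρ]
    rcases le_total 0 E with h | h
    · rw [max_eq_right h, hE]
      nlinarith
    · rw [max_eq_left h]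
      linarith
  have hHτ : ∀ τ : Fin t → Fin j, ∃ C : ℝ, 1 ≤ C ∧ ∀ M : ℕ, 1 ≤ M →
      ∀ h : Fin k → ℤ, ∀ T : Finset (Fin t → ℕ), (∀ u ∈ T, (∀ b, u b ≤ M) ∧
      ∀ n : Fin k, ∑ b, (c (τ b) : ℤ) * (u b : ℤ) ^ (n.val + 1) = h n) → (T.card : ℝ) ≤ C * (M : ℝ) ^ (ρ / 4) :=
    fun τ => hH (fun b => c (τ b)) (fun b => hc _) (ρ / 4) (by positivity)
  choose Cτ hCτ1 hCτ using hHτ
  obtain ⟨C2, hC2, hP⟩ := poly_le j (ρ / 4) (by positivity)
  obtain ⟨CS, hCS⟩ : ∃ CS : ℝ, CS = ∑ τ : Fin t → Fin j, Cτ τ := ⟨_, rfl⟩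
  have hCS0 : 0 ≤ CS := by
    rw [hCS]
    exact Finset.sum_nonneg fun τ _ => by linarith [hCτ1 τ]
  refine ⟨1 + C0 ^ j * (D : ℝ) ^ a * C2 * CS, ρ / 2, by
    have : 0 ≤ C0 ^ j * (D : ℝ) ^ a * C2 * CS := by positivity
    linarith, by positivity, fun L p hp hpz h => ?_⟩
  -- one choice of the largest entries
  have hone : ∀ τ : Fin t → Fin j, Function.Injective τ →
      ∑ u ∈ (SC k D c h L).filter (fun u => ∀ i, ∀ b, b ∉ Set.range τ → u b ≤ u (τ i)), ∏ b, p (u b) ≤
        C0 ^ j * (D : ℝ) ^ a * C2 * Cτ τ * (2 : ℝ) ^ (-(L * (ρ / 2))) := by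
    intro τ hτ
    have hcardB : Fintype.card {b // b ∉ Set.range τ} = j - t := by
      rw [Fintype.card_subtype_compl, Fintype.card_fin]
      congr 1
      have := Fintype.card_congr (Equiv.ofInjective τ hτ)
      rw [Fintype.card_fin] at this
      exact this.symm
    have hsplit : ∀ (M : Type) [CommMonoid M] (f : Fin j → M), ∏ b, f b = (∏ i, f (τ i)) *
        ∏ b : {b // b ∉ Set.range τ}, f b := by
      intro M _ f
      rw [← Fintype.prod_subtype_mul_prod_subtype (fun b => b ∈ Set.range τ) f]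
      congr 1
      symm
      exact @Fintype.prod_equiv (Fin t) {x // x ∈ Set.range τ} M _ (Subtype.fintype _) _ (Equiv.ofInjective τ hτ)
        (fun i => f (τ i)) (fun b => f b) (fun i => rfl)
    have hsplita : ∀ (M : Type) [AddCommMonoid M] (f : Fin j → M), ∑ b, f b = (∑ i, f (τ i)) +
        ∑ b : {b // b ∉ Set.range τ}, f b := by
      intro M _ f
      exact hsplit (Multiplicative M) f
    -- termwise
    have hterm : ∀ u ∈ (SC k D c h L).filter (fun u => ∀ i, ∀ b, b ∉ Set.range τ → u b ≤ u (τ i)),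
        ∏ b, p (u b) ≤ C0 ^ j * (D : ℝ) ^ a * (2 : ℝ) ^ (-(L * ρ)) *
          ∏ b : {b // b ∉ Set.range τ}, ((u b : ℝ))⁻¹ := by
      intro u hu
      unfold SC at hu
      rw [mem_filter, mem_filter, Fintype.mem_piFinset] at hu
      obtain ⟨⟨hu1, _, b0, hb0⟩, hgood⟩ := hu
      have hu2 : ∀ b, 1 ≤ u b ∧ u b < 2 ^ L := fun b => mem_Ico.1 (hu1 b)
      have hur : ∀ b, (1 : ℝ) ≤ u b := fun b => by exact_mod_cast (hu2 b).1
      haveI : Nonempty (Fin t) := ⟨⟨0, ht⟩⟩
      obtain ⟨im, him⟩ := Finite.exists_min (fun i : Fin t => u (τ i))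
      obtain ⟨m3, hm3⟩ : ∃ m3 : ℕ, m3 = u (τ im) := ⟨_, rfl⟩
      have hm1 : (1 : ℝ) ≤ m3 := by rw [hm3]; exact hur _
      have hmL : (m3 : ℝ) ≤ (2 : ℝ) ^ (L : ℝ) := by
        rw [hm3, Real.rpow_natCast]
        exact_mod_cast (hu2 (τ im)).2.le
      obtain ⟨i0, hi0⟩ : ∃ i0 : Fin t, 2 ^ L ≤ D * u (τ i0) := by
        by_cases hb : b0 ∈ Set.range τ
        · obtain ⟨i0, rfl⟩ := hb
          exact ⟨i0, hb0⟩
        · exact ⟨⟨0, ht⟩, hb0.trans (Nat.mul_le_mul_left _ (hgood _ b0 hb))⟩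
      have h1 : ∏ b, p (u b) ≤ ∏ b, (C0 * (u b : ℝ) ^ (-a)) :=
        Finset.prod_le_prod (fun b _ => hp _) (fun b _ => hpz (u b) (hu2 b).1 (hu2 b).2)
      have h2 : ∏ b, (C0 * (u b : ℝ) ^ (-a)) = C0 ^ j * ((∏ i, (u (τ i) : ℝ) ^ (-a)) *
          ∏ b : {b // b ∉ Set.range τ}, (u b : ℝ) ^ (-a)) := by
        rw [Finset.prod_mul_distrib, Finset.prod_const, Finset.card_univ, Fintype.card_fin,
          hsplit ℝ (fun b => (u b : ℝ) ^ (-a))]
      have h3 : ∏ i, (u (τ i) : ℝ) ^ (-a) ≤ (D : ℝ) ^ a * (2 : ℝ) ^ (-(L * a)) * (m3 : ℝ) ^ (-(a * ((t : ℝ) - 1))) := by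
        rw [← Finset.mul_prod_erase univ _ (mem_univ i0)]
        apply mul_le_mul
        · have h5 : (2 : ℝ) ^ (L : ℝ) ≤ D * u (τ i0) := by
            rw [Real.rpow_natCast]
            exact_mod_cast hi0
          have h6 : (2 : ℝ) ^ (L : ℝ) / D ≤ u (τ i0) := by
            rw [div_le_iff₀ (by linarith)]
            linarith
          calc (u (τ i0) : ℝ) ^ (-a) ≤ ((2 : ℝ) ^ (L : ℝ) / D) ^ (-a) :=
                Real.rpow_le_rpow_of_nonpos (by positivity) h6 (by linarith)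
            _ = (D : ℝ) ^ a * (2 : ℝ) ^ (-(L * a)) := by
                rw [Real.div_rpow (by positivity) (by positivity), ← Real.rpow_mul (by norm_num),
                  Real.rpow_neg (by positivity), div_inv_eq_mul, mul_comm]
                congr 2
                ring
        · calc ∏ i ∈ univ.erase i0, (u (τ i) : ℝ) ^ (-a) ≤ ∏ _i ∈ univ.erase i0, (m3 : ℝ) ^ (-a) := by
                apply Finset.prod_le_prod (fun i _ => by positivity)
                intro i _
                apply Real.rpow_le_rpow_of_nonpos (by linarith) _ (by linarith)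
                rw [hm3]
                exact_mod_cast him i
            _ = (m3 : ℝ) ^ (-(a * ((t : ℝ) - 1))) := by
                rw [Finset.prod_const, Finset.card_erase_of_mem (mem_univ _), Finset.card_univ, Fintype.card_fin,
                  ← Real.rpow_natCast, ← Real.rpow_mul (by linarith), Nat.cast_sub ht]
                congr 1
                push_cast
                ring
        · exact Finset.prod_nonneg fun i _ => by positivity
        · positivity
      have h4 : ∏ b : {b // b ∉ Set.range τ}, (u b : ℝ) ^ (-a) ≤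
          (m3 : ℝ) ^ ((1 - a) * ((j : ℝ) - t)) * ∏ b : {b // b ∉ Set.range τ}, ((u b : ℝ))⁻¹ := by
        calc ∏ b : {b // b ∉ Set.range τ}, (u b : ℝ) ^ (-a) ≤
              ∏ b : {b // b ∉ Set.range τ}, ((m3 : ℝ) ^ (1 - a) * ((u b : ℝ))⁻¹) := by
              apply Finset.prod_le_prod (fun b _ => by positivity)
              intro b _
              have e1 : (u b : ℝ) ^ (-a) = (u b : ℝ) ^ (1 - a) * ((u b : ℝ))⁻¹ := by
                rw [← Real.rpow_neg_one, ← Real.rpow_add (by linarith [hur b])]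
                congr 1
                ring
              rw [e1]
              apply mul_le_mul_of_nonneg_right _ (by positivity)
              apply Real.rpow_le_rpow (by positivity) _ (by linarith)
              rw [hm3]
              exact_mod_cast hgood im b b.2
          _ = _ := by
              rw [Finset.prod_mul_distrib, Finset.prod_const, Finset.card_univ, hcardB, ← Real.rpow_natCast,
                ← Real.rpow_mul (by linarith), Nat.cast_sub htj]
      have h5 : (m3 : ℝ) ^ (-(a * ((t : ℝ) - 1))) * (m3 : ℝ) ^ ((1 - a) * ((j : ℝ) - t)) ≤ (2 : ℝ) ^ (L * max 0 E) := by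
        rw [← Real.rpow_add (by linarith)]
        have e1 : -(a * ((t : ℝ) - 1)) + (1 - a) * ((j : ℝ) - t) = E := by rw [hE]; ring
        rw [e1]
        calc (m3 : ℝ) ^ E ≤ (m3 : ℝ) ^ (max 0 E) := Real.rpow_le_rpow_of_exponent_le hm1 (le_max_right _ _)
          _ ≤ ((2 : ℝ) ^ (L : ℝ)) ^ (max 0 E) := Real.rpow_le_rpow (by linarith) hmL (le_max_left _ _)
          _ = _ := by rw [← Real.rpow_mul (by norm_num)]
      have hPr : 0 ≤ ∏ b : {b // b ∉ Set.range τ}, ((u b : ℝ))⁻¹ := Finset.prod_nonneg fun b _ => by positivity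
      calc ∏ b, p (u b) ≤ C0 ^ j * ((∏ i, (u (τ i) : ℝ) ^ (-a)) *
          ∏ b : {b // b ∉ Set.range τ}, (u b : ℝ) ^ (-a)) := h1.trans h2.le
        _ ≤ C0 ^ j * (((D : ℝ) ^ a * (2 : ℝ) ^ (-(L * a)) * (m3 : ℝ) ^ (-(a * ((t : ℝ) - 1)))) *
            ((m3 : ℝ) ^ ((1 - a) * ((j : ℝ) - t)) * ∏ b : {b // b ∉ Set.range τ}, ((u b : ℝ))⁻¹)) := by
            apply mul_le_mul_of_nonneg_left _ (by positivity)
            apply mul_le_mul h3 h4 (Finset.prod_nonneg fun b _ => by positivity) (by positivity)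
        _ = C0 ^ j * (D : ℝ) ^ a * (2 : ℝ) ^ (-(L * a)) * ((m3 : ℝ) ^ (-(a * ((t : ℝ) - 1))) *
            (m3 : ℝ) ^ ((1 - a) * ((j : ℝ) - t))) * ∏ b : {b // b ∉ Set.range τ}, ((u b : ℝ))⁻¹ := by ring
        _ ≤ C0 ^ j * (D : ℝ) ^ a * (2 : ℝ) ^ (-(L * a)) * (2 : ℝ) ^ (L * max 0 E) *
            ∏ b : {b // b ∉ Set.range τ}, ((u b : ℝ))⁻¹ := by
            apply mul_le_mul_of_nonneg_right _ hPr
            exact mul_le_mul_of_nonneg_left h5 (by positivity)
        _ = C0 ^ j * (D : ℝ) ^ a * ((2 : ℝ) ^ (-(L * a)) * (2 : ℝ) ^ (L * max 0 E)) *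
            ∏ b : {b // b ∉ Set.range τ}, ((u b : ℝ))⁻¹ := by ring
        _ = _ := by
            rw [← Real.rpow_add (by norm_num)]
            congr 3
            rw [hρ]
            ring
    -- the sum over the other entries
    have hsum : ∑ u ∈ (SC k D c h L).filter (fun u => ∀ i, ∀ b, b ∉ Set.range τ → u b ≤ u (τ i)),
        ∏ b : {b // b ∉ Set.range τ}, ((u b : ℝ))⁻¹ ≤
        Cτ τ * (2 : ℝ) ^ (L * (ρ / 4)) * ((L : ℝ) + 1) ^ (j - t) := by
      obtain ⟨U, hU⟩ : ∃ U, U = (SC k D c h L).filter (fun u => ∀ i, ∀ b, b ∉ Set.range τ → u b ≤ u (τ i)) := ⟨_, rfl⟩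
      rw [← hU]
      have hUSC : U ⊆ SC k D c h L := by rw [hU]; exact Finset.filter_subset _ _
      have hmaps : ∀ u ∈ U, (fun b : {b // b ∉ Set.range τ} => u b) ∈
          Fintype.piFinset (fun _ : {b // b ∉ Set.range τ} => Ico 1 (2 ^ L)) := by
        intro u hu
        have h1 := hUSC hu
        unfold SC at h1
        rw [mem_filter, Fintype.mem_piFinset] at h1
        rw [Fintype.mem_piFinset]
        exact fun b => h1.1 b
      rw [← Finset.sum_fiberwise_of_maps_to hmaps]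
      have hfib : ∀ v ∈ Fintype.piFinset (fun _ : {b // b ∉ Set.range τ} => Ico 1 (2 ^ L)),
          ∑ u ∈ U with (fun b : {b // b ∉ Set.range τ} => u b) = v, ∏ b : {b // b ∉ Set.range τ}, ((u b : ℝ))⁻¹ ≤
          Cτ τ * (2 : ℝ) ^ (L * (ρ / 4)) * ∏ b : {b // b ∉ Set.range τ}, ((v b : ℝ))⁻¹ := by
        intro v _
        have e1 : ∑ u ∈ U with (fun b : {b // b ∉ Set.range τ} => u b) = v,
            ∏ b : {b // b ∉ Set.range τ}, ((u b : ℝ))⁻¹ =
            ∑ u ∈ U with (fun b : {b // b ∉ Set.range τ} => u b) = v,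
            ∏ b : {b // b ∉ Set.range τ}, ((v b : ℝ))⁻¹ := by
          apply Finset.sum_congr rfl
          intro u hu
          rw [mem_filter] at hu
          apply Finset.prod_congr rfl
          intro b _
          rw [← hu.2]
        rw [e1, Finset.sum_const, nsmul_eq_mul]
        apply mul_le_mul_of_nonneg_right _ (Finset.prod_nonneg fun b _ => by positivity)
        have h3 := hCτ τ (2 ^ L) Nat.one_le_two_pow
          (fun n => (h n : ℤ) - ∑ b : {b // b ∉ Set.range τ}, (c b : ℤ) * (v b : ℤ) ^ (n.val + 1))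
          ((U.filter (fun u => (fun b : {b // b ∉ Set.range τ} => u b) = v)).image (fun u => fun i => u (τ i))) (by
          intro w hw
          rw [mem_image] at hw
          obtain ⟨u, hu, rfl⟩ := hw
          rw [mem_filter] at hu
          obtain ⟨hu1, hu2⟩ := hu
          have h4 := hUSC hu1
          unfold SC at h4
          rw [mem_filter, Fintype.mem_piFinset] at h4
          obtain ⟨h5, h6, _⟩ := h4
          refine ⟨fun i => (mem_Ico.1 (h5 _)).2.le, fun n => ?_⟩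
          have h7 := h6 n
          have h8 : ∑ b, (c b : ℤ) * (u b : ℤ) ^ (n.val + 1) = h n := by exact_mod_cast h7
          rw [hsplita ℤ] at h8
          rw [← h8, ← hu2]
          ring)
        rw [Finset.card_image_of_injOn] at h3
        · refine h3.trans (le_of_eq ?_)
          congr 1
          rw [Real.rpow_mul (by norm_num), Real.rpow_natCast]
          push_cast
          rfl
        · intro u hu u' hu' huu
          rw [mem_coe, mem_filter] at hu hu'
          funext b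
          by_cases hb : b ∈ Set.range τ
          · obtain ⟨i, rfl⟩ := hb
            exact congrFun huu i
          · have e2 := congrFun (hu.2.trans hu'.2.symm) ⟨b, hb⟩
            exact e2
      refine (Finset.sum_le_sum hfib).trans ?_
      rw [← Finset.mul_sum]
      apply mul_le_mul_of_nonneg_left _ (by have := hCτ1 τ; positivity)
      have h6 := Finset.prod_univ_sum (fun _ : {b // b ∉ Set.range τ} => Ico 1 (2 ^ L)) (fun _ (z : ℕ) => ((z : ℝ))⁻¹)
      rw [Finset.prod_const, Finset.card_univ, hcardB] at h6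
      rw [← h6]
      apply pow_le_pow_left₀ (Finset.sum_nonneg fun z _ => by positivity)
      -- the harmonic sum
      have h7 : ∀ L : ℕ, ∑ z ∈ (Ico 1 (2 ^ L) : Finset ℕ), ((z : ℝ))⁻¹ ≤ (L : ℝ) + 1 := by
        intro L
        induction L with
        | zero => simp
        | succ L ih =>
          have h8 : (Ico 1 (2 ^ (L + 1)) : Finset ℕ) = Ico 1 (2 ^ L) ∪ Ico (2 ^ L) (2 ^ (L + 1)) := by
            rw [Finset.Ico_union_Ico_eq_Ico Nat.one_le_two_pow (Nat.pow_le_pow_right (by norm_num) (by omega))]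
          rw [h8, Finset.sum_union (by
            rw [Finset.disjoint_left]
            intro z hz hz'
            rw [mem_Ico] at hz hz'
            omega)]
          have h9 : ∑ z ∈ (Ico (2 ^ L) (2 ^ (L + 1)) : Finset ℕ), ((z : ℝ))⁻¹ ≤ 1 := by
            calc ∑ z ∈ (Ico (2 ^ L) (2 ^ (L + 1)) : Finset ℕ), ((z : ℝ))⁻¹ ≤
                ∑ _z ∈ (Ico (2 ^ L) (2 ^ (L + 1)) : Finset ℕ), (((2 : ℝ) ^ L))⁻¹ := by
                  apply Finset.sum_le_sum
                  intro z hz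
                  rw [mem_Ico] at hz
                  apply inv_anti₀ (by positivity)
                  exact_mod_cast hz.1
              _ = 1 := by
                  rw [Finset.sum_const, Nat.card_Ico, nsmul_eq_mul, pow_succ, mul_two, Nat.add_sub_cancel]
                  push_cast
                  field_simp
          push_cast
          linarith
      exact h7 L
    calc ∑ u ∈ (SC k D c h L).filter (fun u => ∀ i, ∀ b, b ∉ Set.range τ → u b ≤ u (τ i)), ∏ b, p (u b) ≤
          ∑ u ∈ (SC k D c h L).filter (fun u => ∀ i, ∀ b, b ∉ Set.range τ → u b ≤ u (τ i)),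
            C0 ^ j * (D : ℝ) ^ a * (2 : ℝ) ^ (-(L * ρ)) * ∏ b : {b // b ∉ Set.range τ}, ((u b : ℝ))⁻¹ :=
          Finset.sum_le_sum hterm
      _ ≤ C0 ^ j * (D : ℝ) ^ a * (2 : ℝ) ^ (-(L * ρ)) *
            (Cτ τ * (2 : ℝ) ^ (L * (ρ / 4)) * ((L : ℝ) + 1) ^ (j - t)) := by
          rw [← Finset.mul_sum]
          exact mul_le_mul_of_nonneg_left hsum (by positivity)
      _ ≤ C0 ^ j * (D : ℝ) ^ a * (2 : ℝ) ^ (-(L * ρ)) *
            (Cτ τ * (2 : ℝ) ^ (L * (ρ / 4)) * (C2 * (2 : ℝ) ^ (L * (ρ / 4)))) := by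
          apply mul_le_mul_of_nonneg_left _ (by positivity)
          apply mul_le_mul_of_nonneg_left _ (by have := hCτ1 τ; positivity)
          refine le_trans ?_ (hP L)
          apply pow_le_pow_right₀ _ (by omega)
          have : (0 : ℝ) ≤ L := by positivity
          linarith
      _ = C0 ^ j * (D : ℝ) ^ a * C2 * Cτ τ * ((2 : ℝ) ^ (-(L * ρ)) * (2 : ℝ) ^ (L * (ρ / 4)) * (2 : ℝ) ^ (L * (ρ / 4))) := by
          ring
      _ = _ := by
          rw [← Real.rpow_add (by norm_num), ← Real.rpow_add (by norm_num)]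
          congr 2
          ring
  -- all choices
  have hnn : ∀ u : Fin j → ℕ, 0 ≤ ∏ b, p (u b) := fun u => Finset.prod_nonneg fun b _ => hp _
  calc ∑ u ∈ SC k D c h L, ∏ b, p (u b) ≤ ∑ u ∈ SC k D c h L, ∑ τ : Fin t → Fin j,
        (if Function.Injective τ ∧ ∀ i, ∀ b, b ∉ Set.range τ → u b ≤ u (τ i) then ∏ b, p (u b) else 0) := by
        apply Finset.sum_le_sum
        intro u _
        obtain ⟨τ, hτ1, hτ2⟩ := top htj u
        have h1 := Finset.single_le_sum (f := fun τ : Fin t → Fin j =>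
          (if Function.Injective τ ∧ ∀ i, ∀ b, b ∉ Set.range τ → u b ≤ u (τ i) then ∏ b, p (u b) else 0))
          (s := univ) (fun τ _ => by split_ifs; exact hnn u; exact le_rfl) (mem_univ τ)
        rw [if_pos ⟨hτ1, hτ2⟩] at h1
        exact h1
    _ = ∑ τ : Fin t → Fin j, ∑ u ∈ SC k D c h L,
        (if Function.Injective τ ∧ ∀ i, ∀ b, b ∉ Set.range τ → u b ≤ u (τ i) then ∏ b, p (u b) else 0) :=
        Finset.sum_comm
    _ ≤ ∑ τ : Fin t → Fin j, C0 ^ j * (D : ℝ) ^ a * C2 * Cτ τ * (2 : ℝ) ^ (-(L * (ρ / 2))) := by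
        apply Finset.sum_le_sum
        intro τ _
        by_cases hτ : Function.Injective τ
        · rw [← Finset.sum_filter]
          refine le_trans (le_of_eq ?_) (hone τ hτ)
          congr 1
          apply Finset.filter_congr
          intro u _
          exact ⟨fun h => h.2, fun h => ⟨hτ, h⟩⟩
        · rw [Finset.sum_eq_zero]
          · have := hCτ1 τ
            positivity
          · intro u _
            rw [if_neg (fun h => hτ h.1)]
    _ = C0 ^ j * (D : ℝ) ^ a * C2 * CS * (2 : ℝ) ^ (-(L * (ρ / 2))) := by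
        rw [hCS, Finset.mul_sum, Finset.sum_mul]
    _ ≤ (1 + C0 ^ j * (D : ℝ) ^ a * C2 * CS) * (2 : ℝ) ^ (-(L * (ρ / 2))) := by
        apply mul_le_mul_of_nonneg_right _ (by positivity)
        linarith

end Pool.Agent.L5helper4.VS
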