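import Pool.Agent.L5helper4.VR.V7
import Pool.Agent.L5helper4.VS.S4
import Pool.Agent.L5helper4.VS.S5
import Pool.Agent.L5helper4.VS.S7

set_option autoImplicit false

/-!
# Random sets: bounded number of representations by points of the moment curve
-/

open Finset MeasureTheory ProbabilityTheory Filter

namespace Pool.Agent.L5helper4.VS

open Pool.Agent.L5helper4.VR
open Pool.Agent.helper132_dc (sk)

/-- all coefficients -/
lemma wt_all (k j : ℕ) (hk : 1 ≤ k) (hj : 1 ≤ j) (a : ℝ) (ha : 0 < a) (ha1 : a < 1) (hak : 1 / 2 < a ∨ k ≤ 2)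
    (hjk : (1 - a) * j < sk k)
    (C0 : ℝ) (hC0 : 0 ≤ C0) (D : ℕ) (hD : 1 ≤ D) (c : Fin j → ℕ) (hc : ∀ b, 1 ≤ c b) :
    ∃ C γ : ℝ, 1 ≤ C ∧ 0 < γ ∧ ∀ L : ℕ, ∀ p : ℕ → ℝ, (∀ z, 0 ≤ p z) →
      (∀ z : ℕ, 1 ≤ z → z < 2 ^ L → p z ≤ C0 * (z : ℝ) ^ (-a)) → ∀ h : Fin k → ℕ,
      ∑ u ∈ SC k D c h L, ∏ b, p (u b) ≤ C * (2 : ℝ) ^ (-(L * γ)) := by
  rcases hak with h | h
  · exact wt k j hk hj a h ha1 hjk C0 hC0 D hD c hc
  · have hj0 : (0 : ℝ) < j := by exact_mod_cast hj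
    rw [sk_real] at hjk
    interval_cases k
    · apply wt_t 1 j 1 le_rfl hj (Ht_one 1 le_rfl) a ha ha1 _ C0 hC0 D hD c hc
      norm_num at hjk ⊢
      exact hjk
    · rcases Nat.lt_or_ge j 3 with h3 | h3
      · apply wt_t 2 j j hj le_rfl (Ht_three 2 j le_rfl (by omega)) a ha ha1 _ C0 hC0 D hD c hc
        nlinarith
      · apply wt_t 2 j 3 (by norm_num) h3 (Ht_three 2 3 le_rfl le_rfl) a ha ha1 _ C0 hC0 D hD c hc
        norm_num at hjk ⊢
        exact hjk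

/-- **bounded number of representations** -/
theorem rep_ae {Ω : Type} [MeasurableSpace Ω] (μ : Measure Ω) [IsProbabilityMeasure μ] (E : ℕ → Set Ω)
    (hI : iIndepSet E μ) (a C0 : ℝ) (ha : 0 < a) (ha1 : a < 1)
    (hp : ∀ n : ℕ, 1 ≤ n → μ.real (E n) ≤ C0 * (n : ℝ) ^ (-a)) :
    ∀ᵐ ω ∂μ, ∀ s k : ℕ, 1 ≤ k → (1 / 2 < a ∨ k ≤ 2) → (1 - a) * s < sk k →
      ∃ g : ℕ, ∀ h : Fin k → ℕ, ∀ F : Finset (Fin s → ℕ),
        (∀ u ∈ F, Sol {n | ω ∈ E n} (fun _ => 1) h u) → F.card ≤ g := by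
  have hC0 : 0 ≤ C0 := by
    have h1 := hp 1 le_rfl
    simp only [Nat.cast_one, Real.one_rpow, mul_one] at h1
    exact measureReal_nonneg.trans h1
  have h1 : ∀ᵐ ω ∂μ, ∀ k j : ℕ, ∀ c : Fin j → ℕ, 1 ≤ k → (1 / 2 < a ∨ k ≤ 2) → 1 ≤ j → (1 - a) * j < sk k →
      (∀ b, 1 ≤ c b) → ∃ m : ℕ, ∀ h : Fin k → ℕ, ¬ ∃ v : Fin m → Fin j → ℕ,
      Function.Injective (fun q : Fin m × Fin j => v q.1 q.2) ∧ ∀ i, Sol {n | ω ∈ E n} c h (v i) := by
    rw [ae_all_iff]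
    intro k
    rw [ae_all_iff]
    intro j
    rw [ae_all_iff]
    intro c
    by_cases hk : 1 ≤ k
    · by_cases hak : (1 / 2 < a ∨ k ≤ 2)
      · by_cases hj : 1 ≤ j
        · by_cases hjk : (1 - a) * j < sk k
          · by_cases hc : ∀ b, 1 ≤ c b
            · filter_upwards [fam_ae μ E hI a C0 hp k j hk hj c hc (fun D hD =>
                wt_all k j hk hj a ha ha1 hak hjk C0 hC0 D hD c hc)] with ω hω _ _ _ _ _
              exact hω
            · exact ae_of_all _ fun ω _ _ _ _ h => absurd h hc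
          · exact ae_of_all _ fun ω _ _ _ h => absurd h hjk
        · exact ae_of_all _ fun ω _ _ h => absurd h hj
      · exact ae_of_all _ fun ω _ h => absurd h hak
    · exact ae_of_all _ fun ω h => absurd h hk
  filter_upwards [h1] with ω hω s k hk hak hsk
  apply all_bound k s {n | ω ∈ E n}
  intro j hj hjs c hc
  apply hω k j c hk hak hj _ hc
  have h2 : (j : ℝ) ≤ s := by exact_mod_cast hjs
  have h3 : (1 - a) * (j : ℝ) ≤ (1 - a) * s := mul_le_mul_of_nonneg_left h2 (by linarith)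
  linarith

/-- the exponential sum, explicitly -/
lemma fs_eq (k : ℕ) (S : Finset ℕ) (c : ℕ → ℂ) (α : Fin k → ℝ) :
    fs k S c α = ∑ n ∈ S, c n * Complex.exp (2 * Real.pi * Complex.I * ∑ j : Fin k, (α j : ℂ) * (n : ℂ) ^ (j.val + 1)) := by
  unfold fs ex vk
  apply Finset.sum_congr rfl
  intro n _
  congr 3
  push_cast
  rfl

/-- the whole statement for one point of the probability space -/
theorem main_ae {Ω : Type} [MeasurableSpace Ω] (μ : Measure Ω) [IsProbabilityMeasure μ] (E : ℕ → Set Ω)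
    (hI : iIndepSet E μ) (a C0 : ℝ) (ha : 0 < a) (ha1 : a < 1)
    (hp : ∀ n : ℕ, 1 ≤ n → μ.real (E n) ≤ C0 * (n : ℝ) ^ (-a)) :
    ∀ᵐ ω ∂μ, ∀ s k : ℕ, 1 ≤ k → (1 / 2 < a ∨ k ≤ 2) → (1 - a) * s < (k : ℝ) * (k + 1) / 2 →
      ∃ g : ℕ, (∀ h : Fin k → ℕ, {x : Fin s → ℕ | (∀ i, 1 ≤ x i ∧ ω ∈ E (x i)) ∧
          ∀ j : Fin k, ∑ i, x i ^ (j.val + 1) = h j}.encard ≤ g) ∧
        ∀ S : Finset ℕ, (∀ n ∈ S, 1 ≤ n ∧ ω ∈ E n) → ∀ c : ℕ → ℂ,
          ∫ α in Set.Icc (0 : Fin k → ℝ) 1, ‖fs k S c α‖ ^ (2 * s) ≤ g * (∑ n ∈ S, ‖c n‖ ^ 2) ^ s := by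
  filter_upwards [rep_ae μ E hI a C0 ha ha1 hp] with ω hω s k hk hak hsk
  rw [← sk_real] at hsk
  obtain ⟨g, hg⟩ := hω s k hk hak hsk
  refine ⟨g, fun h => ?_, fun S hS c => ?_⟩
  · by_contra hcon
    push Not at hcon
    have h1 : ((g + 1 : ℕ) : ℕ∞) ≤ {x : Fin s → ℕ | (∀ i, 1 ≤ x i ∧ ω ∈ E (x i)) ∧
          ∀ j : Fin k, ∑ i, x i ^ (j.val + 1) = h j}.encard := by
      push_cast
      exact Order.add_one_le_of_lt hcon
    obtain ⟨t, ht1, ht2⟩ := Set.exists_subset_encard_eq h1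
    have htf : t.Finite := Set.finite_of_encard_eq_coe ht2
    have h2 := hg h htf.toFinset (by
      intro u hu
      rw [Set.Finite.mem_toFinset] at hu
      obtain ⟨h3, h4⟩ := ht1 hu
      refine ⟨h3, fun j => ?_⟩
      rw [← h4 j]
      apply Finset.sum_congr rfl
      intro b _
      rw [one_mul])
    rw [htf.encard_eq_coe_toFinset_card] at ht2
    have h3 : htf.toFinset.card = g + 1 := by exact_mod_cast ht2
    omega
  · apply restr k s g S _ c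
    intro h F hF
    apply hg h F
    intro u hu
    obtain ⟨h1, h2⟩ := hF u hu
    refine ⟨fun b => hS _ (h1 b), fun j => ?_⟩
    rw [← h2 j]
    apply Finset.sum_congr rfl
    intro b _
    rw [one_mul]

/-- the range is sharp -/
theorem sharp_ae {Ω : Type} [MeasurableSpace Ω] (μ : Measure Ω) [IsProbabilityMeasure μ] (E : ℕ → Set Ω)
    (hE : ∀ n, MeasurableSet (E n)) (hI : iIndepSet E μ) (a c C : ℝ) (ha : 0 < a) (ha1 : a < 1) (hc : 0 < c)
    (hp : ∀ n : ℕ, 1 ≤ n → c * (n : ℝ) ^ (-a) ≤ μ.real (E n) ∧ μ.real (E n) ≤ C * (n : ℝ) ^ (-a)) :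
    ∀ᵐ ω ∂μ, ∀ s k : ℕ, 1 ≤ k → (k : ℝ) * (k + 1) / 2 < (1 - a) * s → ∀ g : ℕ,
      ∃ S : Finset ℕ, (∀ n ∈ S, 1 ≤ n ∧ ω ∈ E n) ∧
        (g : ℝ) * (S.card : ℝ) ^ s < ∫ α in Set.Icc (0 : Fin k → ℝ) 1, ‖fs k S (fun _ => 1) α‖ ^ (2 * s) := by
  classical
  filter_upwards [random μ E hE hI a c C ha ha1 hc hp, low μ E hE hI a c ha ha1 hc (fun n hn => (hp n hn).1)]
    with ω hω hlow s k hk hsk g
  rw [← sk_real] at hsk
  have hs : 1 ≤ s := by
    by_contra h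
    have h0 : s = 0 := by omega
    rw [h0] at hsk
    have : (0 : ℝ) ≤ sk k := by positivity
    simp at hsk
    linarith
  obtain ⟨δ, hδ, hev⟩ := (hω s k hs hk).2 hsk
  -- the sets grow
  have hR : Tendsto (fun L : ℕ => ((An E (2 ^ L) ω).card : ℝ)) atTop atTop := by
    have h1 : Tendsto (fun L : ℕ => c / 4 * (2 : ℝ) ^ ((L : ℝ) * (1 - a))) atTop atTop := by
      apply Tendsto.const_mul_atTop (by positivity)
      have h2 : ∀ L : ℕ, (2 : ℝ) ^ ((L : ℝ) * (1 - a)) = ((2 : ℝ) ^ (1 - a)) ^ L := by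
        intro L
        rw [mul_comm, Real.rpow_mul (by norm_num), Real.rpow_natCast]
      simp only [h2]
      exact tendsto_pow_atTop_atTop_of_one_lt (Real.one_lt_rpow (by norm_num) (by linarith))
    apply tendsto_atTop_mono' atTop _ h1
    filter_upwards [hlow] with L hL
    refine hL.trans ?_
    have h3 : (range (2 ^ L)).filter (fun n => 1 ≤ n ∧ ω ∈ E n) ⊆ An E (2 ^ L) ω := by
      intro n hn
      rw [mem_filter, mem_range] at hn
      unfold An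
      rw [mem_filter, mem_Icc]
      exact ⟨⟨hn.2.1, hn.1.le⟩, hn.2.2⟩
    have h4 : (((range (2 ^ L)).filter (fun n => 1 ≤ n ∧ ω ∈ E n)).card : ℝ) ≤ ((An E (2 ^ L) ω).card : ℝ) := by
      exact_mod_cast Finset.card_le_card h3
    refine le_trans (le_of_eq ?_) h4
    congr
  have h5 : Tendsto (fun L : ℕ => ((An E (2 ^ L) ω).card : ℝ) ^ δ) atTop atTop :=
    (tendsto_rpow_atTop hδ).comp hR
  have h6 : Tendsto (fun L : ℕ => 2 ^ L) atTop atTop := tendsto_pow_atTop_atTop_of_one_lt (by norm_num)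
  obtain ⟨L, hL1, hL2, hL3⟩ := ((h5.eventually_gt_atTop (g : ℝ)).and ((h6.eventually hev).and
    (hR.eventually_ge_atTop 1))).exists
  refine ⟨An E (2 ^ L) ω, fun n hn => ?_, ?_⟩
  · unfold An at hn
    rw [mem_filter, mem_Icc] at hn
    exact ⟨hn.1.1, hn.2⟩
  · rw [moment_one]
    have hpos : (0 : ℝ) < ((An E (2 ^ L) ω).card : ℝ) := by linarith
    have h7 : (g : ℝ) * ((An E (2 ^ L) ω).card : ℝ) ^ s < ((An E (2 ^ L) ω).card : ℝ) ^ ((s : ℝ) + δ) := by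
      rw [Real.rpow_add hpos, Real.rpow_natCast, mul_comm]
      exact mul_lt_mul_of_pos_left hL1 (by positivity)
    refine lt_of_lt_of_le (h7.trans_le hL2) (le_of_eq ?_)
    unfold sols
    congr 2

end Pool.Agent.L5helper4.VS
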